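import Pool.Agent.Lib.MP_31a5b6_al.R.Patq

/-! One block of marked points. -/

set_option autoImplicit false

namespace Pool.Agent.Lib.MP_31a5b6_al.R

open Filter Topology

variable {L : Subgroup (ℝ ≃o ℝ)} {D : Set ℝ}

theorem block_emb (h : RB L D) (u v : ℝ) (huv : u < v) :
    ∃ p : ℚ → ℝ, (∀ i, p i ∈ D ∧ u < p i ∧ p i < v) ∧ ∀ i j, p i < p j ↔ i < j := by
  have : DenselyOrdered {s : ℝ // s ∈ D ∧ u < s ∧ s < v} := ⟨by
    rintro ⟨s, hs⟩ ⟨t, ht⟩ hst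
    obtain ⟨z, hz, h1, h2⟩ := h.dense s t hst
    exact ⟨⟨z, hz, hs.2.1.trans h1, h2.trans ht.2.2⟩, h1, h2⟩⟩
  have : Nontrivial {s : ℝ // s ∈ D ∧ u < s ∧ s < v} := by
    obtain ⟨z, hz, h1, h2⟩ := h.dense u v huv
    obtain ⟨z', hz', h1', h2'⟩ := h.dense z v h2
    exact ⟨⟨⟨z, hz, h1, h2⟩, ⟨z', hz', h1.trans h1', h2'⟩, fun e => h1'.ne (congrArg Subtype.val e)⟩⟩
  obtain ⟨e⟩ := Order.embedding_from_countable_to_dense ℚ {s : ℝ // s ∈ D ∧ u < s ∧ s < v}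
  exact ⟨fun i => (e i).1, fun i => (e i).2, fun i j => e.lt_iff_lt⟩

theorem RB.thick_pts (h : RB L D) (x : ℝ) (hx : x ∈ D) (W : Finset (ℝ ≃o ℝ))
    (hW : ∀ w ∈ W, w ∈ L) (c : ℝ) (hc : x < c) :
    ∃ p : ℚ → ℝ, (∀ i, p i ∈ D ∧ x < p i ∧ p i < c) ∧ ∀ w ∈ W, ∀ w' ∈ W, ∀ i j,
      (w (p i) < w' (p j) ↔ (w x < w' x ∨ (w x = w' x ∧ i < j))) := by
  have hA : ∀ w ∈ W, ∀ w' ∈ W, ∀ᶠ t in 𝓝[>] x, (w x < w' x → w t < w' x) ∧
      (w x = w' x → ∀ s, x ≤ s → s ≤ t → w s = w' s) := by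
    intro w hw w' hw'
    refine Eventually.and ?_ ?_
    · by_cases h1 : w x < w' x
      · have h2 : ∀ᶠ t in 𝓝 x, w t < w' x :=
          (w.continuous.tendsto x).eventually (gt_mem_nhds h1)
        exact (h2.filter_mono nhdsWithin_le_nhds).mono fun t ht _ => ht
      · exact Eventually.of_forall fun t h2 => absurd h2 h1
    · by_cases h1 : w x = w' x
      · have hf : (w'⁻¹ * w) x = x := by rw [mul_app, h1, inv_app_app]
        obtain ⟨x', hx', h2⟩ := h.thick (w'⁻¹ * w)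
          (L.mul_mem (L.inv_mem (hW w' hw')) (hW w hw)) x hx hf
        filter_upwards [Ioo_mem_nhdsGT hx'] with t ht _ s hs1 hs2
        have h3 := h2 s hs1 (hs2.trans ht.2.le)
        rw [mul_app] at h3
        have h4 := congrArg w' h3
        rwa [app_inv_app] at h4
      · exact Eventually.of_forall fun t h2 => absurd h2 h1
  have hB : ∀ᶠ t in 𝓝[>] x, ∀ w ∈ W, ∀ w' ∈ W, (w x < w' x → w t < w' x) ∧
      (w x = w' x → ∀ s, x ≤ s → s ≤ t → w s = w' s) :=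
    (Filter.eventually_all_finset W).2 fun w hw =>
      (Filter.eventually_all_finset W).2 fun w' hw' => hA w hw w' hw'
  obtain ⟨t, ht, hB⟩ := (Eventually.and (Ioo_mem_nhdsGT hc) hB).exists
  obtain ⟨p, hp, hmono⟩ := block_emb h x t ht.1
  refine ⟨p, fun i => ⟨(hp i).1, (hp i).2.1, (hp i).2.2.trans ht.2⟩, fun w hw w' hw' i j => ?_⟩
  have key : ∀ u ∈ W, ∀ u' ∈ W, ∀ k l, u x < u' x → u (p k) < u' (p l) := by
    intro u hu u' hu' k l hlt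
    calc u (p k) < u t := u.strictMono (hp k).2.2
      _ < u' x := (hB u hu u' hu').1 hlt
      _ < u' (p l) := u'.strictMono (hp l).2.1
  rcases lt_trichotomy (w x) (w' x) with h1 | h1 | h1
  · exact ⟨fun _ => Or.inl h1, fun _ => key w hw w' hw' i j h1⟩
  · rw [(hB w hw w' hw').2 h1 (p i) (hp i).2.1.le (hp i).2.2.le, w'.lt_iff_lt, hmono]
    constructor
    · exact fun h2 => Or.inr ⟨h1, h2⟩
    · rintro (h2 | h2)
      · exact absurd h1 h2.ne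
      · exact h2.2
  · constructor
    · exact fun h2 => absurd (key w' hw' w hw j i h1) h2.not_gt
    · rintro (h2 | h2)
      · exact absurd h1 h2.not_gt
      · exact absurd h2.1 h1.ne'

theorem RB.block (h : RB L D) (d a b ε : ℝ) (ha : a < d) (hb : d < b) (hε : 0 < ε)
    (W : Finset (ℝ ≃o ℝ)) (hW : ∀ w ∈ W, w ∈ L ∧ w d = d) :
    ∃ (x a' b' : ℝ) (p p' : ℚ → ℝ), a' ∈ D ∧ b' ∈ D ∧ a < a' ∧ a' < d ∧ d < b' ∧ b' < b ∧
      d - ε < a' ∧ b' < d + ε ∧ (∀ i, p i ∈ D ∧ p' i ∈ D) ∧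
      (∀ w ∈ W, ∀ i, a < w (p i) ∧ w (p i) < a' ∧ b' < w (p' i) ∧ w (p' i) < b) ∧
      ∀ w ∈ W, ∀ w' ∈ W, ∀ i j,
        (w (p i) < w' (p j) ↔ (w x < w' x ∨ (w x = w' x ∧ i < j))) ∧
        (w (p' i) < w' (p' j) ↔ (w x < w' x ∨ (w x = w' x ∧ i < j))) := by
  have h1 : ∀ᶠ s in 𝓝 d, ∀ w ∈ W, a < w s ∧ w s < b := by
    refine (Filter.eventually_all_finset W).2 fun w hw => ?_
    have ht : Tendsto w (𝓝 d) (𝓝 d) := by
      have := w.continuous.tendsto d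
      rwa [(hW w hw).2] at this
    exact (ht.eventually (lt_mem_nhds ha)).and (ht.eventually (gt_mem_nhds hb))
  obtain ⟨a₁, b₁, hd₁, hI₁⟩ := mem_nhds_iff_exists_Ioo_subset.1 h1
  obtain ⟨x, hx, y, hy, hax, hxd, hdy, hyb, hpat⟩ := h.patq d a₁ b₁ hd₁.1 hd₁.2 W hW
  obtain ⟨c, hxc, hcd⟩ := exists_between hxd
  obtain ⟨p, hp, hpp⟩ := h.thick_pts x hx W (fun w hw => (hW w hw).1) c hxc
  obtain ⟨p', hp', hpp'⟩ := h.thick_pts y hy W (fun w hw => (hW w hw).1) b₁ hyb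
  have h2 : ∀ᶠ t in 𝓝 d, (a < t ∧ t < b) ∧ (d - ε < t ∧ t < d + ε) ∧
      ∀ w ∈ W, w c < t ∧ t < w y := by
    refine ((lt_mem_nhds ha).and (gt_mem_nhds hb)).and
      (((lt_mem_nhds (by linarith)).and (gt_mem_nhds (by linarith))).and ?_)
    refine (Filter.eventually_all_finset W).2 fun w hw => ?_
    have e1 : w c < d := by
      have := w.strictMono hcd
      rwa [(hW w hw).2] at this
    have e2 : d < w y := by
      have := w.strictMono hdy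
      rwa [(hW w hw).2] at this
    exact (lt_mem_nhds e1).and (gt_mem_nhds e2)
  obtain ⟨a₂, b₂, hd₂, hI₂⟩ := mem_nhds_iff_exists_Ioo_subset.1 h2
  obtain ⟨a', ha'D, ha'1, ha'2⟩ := h.dense a₂ d hd₂.1
  obtain ⟨b', hb'D, hb'1, hb'2⟩ := h.dense d b₂ hd₂.2
  have ka := hI₂ ⟨ha'1, ha'2.trans hd₂.2⟩
  have kb := hI₂ ⟨hd₂.1.trans hb'1, hb'2⟩
  refine ⟨x, a', b', p, p', ha'D, hb'D, ka.1.1, ha'2, hb'1, kb.1.2, ka.2.1.1, kb.2.1.2,
    fun i => ⟨(hp i).1, (hp' i).1⟩, fun w hw i => ⟨?_, ?_, ?_, ?_⟩,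
    fun w hw w' hw' i j => ⟨hpp w hw w' hw' i j, ?_⟩⟩
  · exact (hI₁ ⟨hax.trans (hp i).2.1, (hp i).2.2.trans (hcd.trans hd₁.2)⟩ w hw).1
  · exact (w.strictMono (hp i).2.2).trans (ka.2.2 w hw).1
  · exact (kb.2.2 w hw).2.trans (w.strictMono (hp' i).2.1)
  · exact (hI₁ ⟨hd₁.1.trans (hdy.trans (hp' i).2.1), (hp' i).2.2⟩ w hw).2
  · have e1 := hpat w hw w' hw'
    have e2 := hpat w' hw' w hw
    have e3 : w y = w' y ↔ w x = w' x := by
      constructor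
      · intro e
        exact le_antisymm (not_lt.1 fun k => (e2.1 k).ne' e) (not_lt.1 fun k => (e1.1 k).ne e)
      · intro e
        exact le_antisymm (not_lt.1 fun k => (e2.2 k).ne' e) (not_lt.1 fun k => (e1.2 k).ne e)
    rw [hpp' w hw w' hw' i j, e1, e3]

end Pool.Agent.Lib.MP_31a5b6_al.R
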