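import Pool.Agent.Lib.MP_31a5b6_al.R.Block

/-! The sequence of blocks at a real number. -/

set_option autoImplicit false

namespace Pool.Agent.Lib.MP_31a5b6_al.R

open Filter Topology

variable {L : Subgroup (ℝ ≃o ℝ)} {D : Set ℝ}

theorem RB.blocks (h : RB L D) (d : ℝ) :
    ∃ (a b x : ℕ → ℝ) (p p' : ℕ → ℚ → ℝ), (∀ n, a n ∈ D ∧ b n ∈ D ∧ a n < d ∧ d < b n) ∧
      StrictMono a ∧ StrictAnti b ∧ Tendsto a atTop (𝓝 d) ∧ Tendsto b atTop (𝓝 d) ∧
      (∀ n i, p n i ∈ D ∧ p' n i ∈ D) ∧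
      (∀ w ∈ L, w d = d → ∀ᶠ n in atTop, ∀ i, a n < w (p n i) ∧ w (p n i) < a (n + 1) ∧
        b (n + 1) < w (p' n i) ∧ w (p' n i) < b n) ∧
      ∀ w ∈ L, w d = d → ∀ w' ∈ L, w' d = d → ∀ᶠ n in atTop, ∀ i j,
        (w (p n i) < w' (p n j) ↔ (w (x n) < w' (x n) ∨ (w (x n) = w' (x n) ∧ i < j))) ∧
        (w (p' n i) < w' (p' n j) ↔ (w (x n) < w' (x n) ∨ (w (x n) = w' (x n) ∧ i < j))) := by
  classical
  have hc : {w : ℝ ≃o ℝ | w ∈ L ∧ w d = d}.Countable := h.cnt.mono fun w hw => hw.1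
  obtain ⟨e, he⟩ := hc.exists_eq_range ⟨1, L.one_mem, rfl⟩
  have he1 : ∀ k, e k ∈ L ∧ e k d = d := fun k => by
    have : e k ∈ Set.range e := ⟨k, rfl⟩
    rw [← he] at this
    exact this
  have he2 : ∀ w ∈ L, w d = d → ∀ᶠ n in atTop, w ∈ (Finset.range (n + 1)).image e := by
    intro w hw hd
    have : w ∈ Set.range e := by rw [← he]; exact ⟨hw, hd⟩
    obtain ⟨k, rfl⟩ := this
    filter_upwards [eventually_ge_atTop k] with n hn
    exact Finset.mem_image_of_mem _ (Finset.mem_range.2 (by omega))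
  have hb := fun (n : ℕ) (s : {s : ℝ × ℝ // s.1 ∈ D ∧ s.2 ∈ D ∧ s.1 < d ∧ d < s.2}) =>
    h.block d s.1.1 s.1.2 (1 / ((n : ℝ) + 1)) s.2.2.2.1 s.2.2.2.2 Nat.one_div_pos_of_nat
      ((Finset.range (n + 1)).image e) (fun w hw => by
        obtain ⟨k, -, rfl⟩ := Finset.mem_image.1 hw
        exact he1 k)
  choose X A B P P' h1 h2 h3 h4 h5 h6 h7 h8 h9 h10 h11 using hb
  obtain ⟨a0, ha0, -, ha1⟩ := h.dense (d - 1) d (by linarith)
  obtain ⟨b0, hb0, hb1, -⟩ := h.dense d (d + 1) (by linarith)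
  let S : ℕ → {s : ℝ × ℝ // s.1 ∈ D ∧ s.2 ∈ D ∧ s.1 < d ∧ d < s.2} := fun n =>
    Nat.rec ⟨(a0, b0), ha0, hb0, ha1, hb1⟩
      (fun n s => ⟨(A n s, B n s), h1 n s, h2 n s, h4 n s, h5 n s⟩) n
  have eA : ∀ n, (S (n + 1)).1.1 = A n (S n) := fun n => rfl
  have eB : ∀ n, (S (n + 1)).1.2 = B n (S n) := fun n => rfl
  have hl : Tendsto (fun n : ℕ => 1 / ((n : ℝ) + 1)) atTop (𝓝 0) :=
    tendsto_one_div_add_atTop_nhds_zero_nat
  refine ⟨fun n => (S n).1.1, fun n => (S n).1.2, fun n => X n (S n), fun n => P n (S n),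
    fun n => P' n (S n), fun n => (S n).2, strictMono_nat_of_lt_succ fun n => h3 n (S n),
    strictAnti_nat_of_succ_lt fun n => h6 n (S n), ?_, ?_, fun n => h9 n (S n), ?_, ?_⟩
  · rw [← tendsto_add_atTop_iff_nat 1]
    refine tendsto_of_tendsto_of_tendsto_of_le_of_le (g := fun n : ℕ => d - 1 / ((n : ℝ) + 1))
      (h := fun _ => d) (by simpa using hl.const_sub d) tendsto_const_nhds
      (fun n => (h7 n (S n)).le) (fun n => (h4 n (S n)).le)
  · rw [← tendsto_add_atTop_iff_nat 1]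
    refine tendsto_of_tendsto_of_tendsto_of_le_of_le (h := fun n : ℕ => d + 1 / ((n : ℝ) + 1))
      (g := fun _ => d) tendsto_const_nhds (by simpa using hl.const_add d)
      (fun n => (h5 n (S n)).le) (fun n => (h8 n (S n)).le)
  · intro w hw hd
    filter_upwards [he2 w hw hd] with n hn
    exact h10 n (S n) w hn
  · intro w hw hd w' hw' hd'
    filter_upwards [he2 w hw hd, he2 w' hw' hd'] with n hn hn'
    exact h11 n (S n) w hn w' hn'

end Pool.Agent.Lib.MP_31a5b6_al.R
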