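import Mathlib

/-! Definitions for the lattice-ordered group on the real line without l-primes. -/

set_option autoImplicit false

namespace Pool.Agent.Lib.MP_31a5b6_al.R

open Filter Topology

/-- the ultrafilter used throughout -/
noncomputable abbrev UF : Filter ℕ := (hyperfilter ℕ : Filter ℕ)

theorem UF_le : UF ≤ atTop := Nat.hyperfilter_le_atTop

section Basic

variable {α : Type} [LinearOrder α]

/-- Pointwise maximum of two order automorphisms. -/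
def supIso (f g : α ≃o α) : α ≃o α where
  toFun t := max (f t) (g t)
  invFun t := min (f.symm t) (g.symm t)
  left_inv t := by
    rcases le_total (f t) (g t) with h | h
    · simp only [max_eq_right h, OrderIso.symm_apply_apply]
      apply min_eq_right
      rwa [OrderIso.le_symm_apply]
    · simp only [max_eq_left h, OrderIso.symm_apply_apply]
      apply min_eq_left
      rwa [OrderIso.le_symm_apply]
  right_inv t := by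
    rcases le_total (f.symm t) (g.symm t) with h | h
    · simp only [min_eq_left h, OrderIso.apply_symm_apply]
      apply max_eq_left
      rwa [← OrderIso.le_symm_apply]
    · simp only [min_eq_right h, OrderIso.apply_symm_apply]
      apply max_eq_right
      rwa [← OrderIso.le_symm_apply]
  map_rel_iff' := by
    intro a b
    have : StrictMono (fun t => max (f t) (g t)) := fun x y h =>
      max_lt_max (f.strictMono h) (g.strictMono h)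
    exact this.le_iff_le

theorem supIso_apply (f g : α ≃o α) (t : α) : supIso f g t = max (f t) (g t) := rfl

theorem supIso_inv_apply (f g : α ≃o α) (t : α) :
    (supIso f g)⁻¹ t = min (f⁻¹ t) (g⁻¹ t) := rfl

theorem infIso_apply (f g : α ≃o α) (t : α) : (supIso f⁻¹ g⁻¹)⁻¹ t = min (f t) (g t) := rfl

theorem mul_app (f g : α ≃o α) (t : α) : (f * g) t = f (g t) := rfl

theorem one_app (t : α) : (1 : α ≃o α) t = t := rfl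

theorem inv_app (f : α ≃o α) (t : α) : f⁻¹ t = f.symm t := rfl

theorem inv_app_app (f : α ≃o α) (t : α) : f⁻¹ (f t) = t := f.symm_apply_apply t

theorem app_inv_app (f : α ≃o α) (t : α) : f (f⁻¹ t) = t := f.apply_symm_apply t

theorem pow_succ_app (f : α ≃o α) (n : ℕ) (t : α) : (f ^ (n + 1)) t = f ((f ^ n) t) := by
  rw [pow_succ']; rfl

/-- `f` fixes every point between the two optional bounds -/
def Triv (f : α → α) (lo hi : Option α) : Prop :=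
  ∀ s, (∀ a, lo = some a → a ≤ s) → (∀ b, hi = some b → s ≤ b) → f s = s

end Basic

/-- one stage of the tower -/
structure Good (G : Subgroup (ℚ ≃o ℚ)) : Prop where
  cnt : (G : Set (ℚ ≃o ℚ)).Countable
  sup : ∀ f ∈ G, ∀ g ∈ G, supIso f g ∈ G
  move : ∀ a b x y : ℚ, a < x → x < b → a < y → y < b →
    ∃ l ∈ G, l x = y ∧ ∀ s, (s ≤ a ∨ b ≤ s) → l s = s

/-- one step of the tower -/
structure StepP (G G' : Subgroup (ℚ ≃o ℚ)) (ι : ℚ ↪o ℚ) (Φ : (ℚ ≃o ℚ) → (ℚ ≃o ℚ)) : Prop where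
  mem : ∀ f ∈ G, Φ f ∈ G'
  mul : ∀ f ∈ G, ∀ g ∈ G, Φ (f * g) = Φ f * Φ g
  eqv : ∀ f ∈ G, ∀ t, Φ f (ι t) = ι (f t)
  sup : ∀ f ∈ G, ∀ g ∈ G, Φ (supIso f g) = supIso (Φ f) (Φ g)
  triv : ∀ f ∈ G, ∀ lo hi : Option ℚ, Triv f lo hi → Triv (Φ f) (lo.map ι) (hi.map ι)
  thick : ∀ f ∈ G, ∀ w, f w = w → ∃ w', ι w < w' ∧ Triv (Φ f) (some (ι w)) (some w')
  fixp : ∀ f ∈ G, ∀ x y, x ≤ f x → (∀ n : ℕ, (f ^ n) x ≤ y) →
    ∃ w, ι x ≤ w ∧ w ≤ ι y ∧ Φ f w = w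
  pat : ∀ f ∈ G, ∀ x t, ∀ W : Finset (ℚ ≃o ℚ), (∀ w ∈ W, w ∈ G) → ∃ z, ∃ n : ℕ,
    (∀ w ∈ W, ∀ w' ∈ W, Φ w z < Φ w' z ↔ w ((f ^ n) x) < w' ((f ^ n) x)) ∧
    ((∀ k : ℕ, (f ^ k) x < t) → z < ι t) ∧ ((∀ k : ℕ, t < (f ^ k) x) → ι t < z) ∧
    (x < f x → ∀ m : ℕ, ι ((f ^ m) x) < z) ∧ (f x < x → ∀ m : ℕ, z < ι ((f ^ m) x))

/-- the tower together with its limit chain, identified with the rationals through `j` -/
structure Tower where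
  G : ℕ → Subgroup (ℚ ≃o ℚ)
  ι : ℕ → ℚ ↪o ℚ
  Φ : ℕ → (ℚ ≃o ℚ) → (ℚ ≃o ℚ)
  j : ℕ → ℚ ↪o ℚ
  good : ∀ n, Good (G n)
  st : ∀ n, StepP (G n) (G (n + 1)) (ι n) (Φ n)
  hj : ∀ n t, j (n + 1) (ι n t) = j n t
  hs : ∀ q, ∃ n t, j n t = q

/-- `g` is the limit of the coherent sequence `F n`, `n ≥ N` -/
def Tower.Rep (T : Tower) (g : ℚ ≃o ℚ) (N : ℕ) (F : ℕ → ℚ ≃o ℚ) : Prop :=
  ∀ n, N ≤ n → F n ∈ T.G n ∧ F (n + 1) = T.Φ n (F n) ∧ ∀ t, g (T.j n t) = T.j n (F n t)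

/-- the countable base group on the rationals -/
structure Base (L : Subgroup (ℚ ≃o ℚ)) : Prop where
  good : Good L
  thick : ∀ f ∈ L, ∀ w, f w = w → ∃ w', w < w' ∧ Triv f (some w) (some w')
  fixp : ∀ f ∈ L, ∀ x y, x ≤ f x → (∀ n : ℕ, (f ^ n) x ≤ y) → ∃ w, x ≤ w ∧ w ≤ y ∧ f w = w
  pat : ∀ f ∈ L, ∀ x t, ∀ W : Finset (ℚ ≃o ℚ), (∀ w ∈ W, w ∈ L) → ∃ z, ∃ n : ℕ,
    (∀ w ∈ W, ∀ w' ∈ W, w z < w' z ↔ w ((f ^ n) x) < w' ((f ^ n) x)) ∧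
    ((∀ k : ℕ, (f ^ k) x < t) → z < t) ∧ ((∀ k : ℕ, t < (f ^ k) x) → t < z) ∧
    (x < f x → ∀ m : ℕ, (f ^ m) x < z) ∧ (f x < x → ∀ m : ℕ, z < (f ^ m) x)

/-- the countable base group on the real line, with its dense orbit `D` -/
structure RB (L : Subgroup (ℝ ≃o ℝ)) (D : Set ℝ) : Prop where
  cnt : (L : Set (ℝ ≃o ℝ)).Countable
  sup : ∀ f ∈ L, ∀ g ∈ L, supIso f g ∈ L
  dense : ∀ a b : ℝ, a < b → ∃ x ∈ D, a < x ∧ x < b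
  inv : ∀ l ∈ L, ∀ x ∈ D, l x ∈ D
  move : ∀ a ∈ D, ∀ b ∈ D, ∀ x ∈ D, ∀ y ∈ D, a < x → x < b → a < y → y < b →
    ∃ l ∈ L, l x = y ∧ ∀ s, (s ≤ a ∨ b ≤ s) → l s = s
  thick : ∀ f ∈ L, ∀ w ∈ D, f w = w → ∃ w', w < w' ∧ ∀ s, w ≤ s → s ≤ w' → f s = s
  fixp : ∀ f ∈ L, ∀ x ∈ D, ∀ y ∈ D, x ≤ f x → (∀ n : ℕ, (f ^ n) x ≤ y) →
    ∃ w ∈ D, x ≤ w ∧ w ≤ y ∧ f w = w
  pat : ∀ f ∈ L, ∀ x ∈ D, ∀ t ∈ D, ∀ W : Finset (ℝ ≃o ℝ), (∀ w ∈ W, w ∈ L) →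
    ∃ z ∈ D, ∃ n : ℕ,
    (∀ w ∈ W, ∀ w' ∈ W, w z < w' z ↔ w ((f ^ n) x) < w' ((f ^ n) x)) ∧
    ((∀ k : ℕ, (f ^ k) x < t) → z < t) ∧ ((∀ k : ℕ, t < (f ^ k) x) → t < z) ∧
    (x < f x → ∀ m : ℕ, (f ^ m) x < z) ∧ (f x < x → ∀ m : ℕ, z < (f ^ m) x)

/-- separators `a n ↑ d`, `b n ↓ d` for the marked points `x ω n`, `y ω n` -/
structure Sep (D : Set ℝ) (d : ℝ) (x y : ℚ → ℕ → ℝ) (a b : ℕ → ℝ) : Prop where
  mem : ∀ n, a n ∈ D ∧ b n ∈ D ∧ a n < d ∧ d < b n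
  amono : StrictMono a
  banti : StrictAnti b
  alim : Tendsto a atTop (𝓝 d)
  blim : Tendsto b atTop (𝓝 d)
  ann : ∀ ω, ∀ᶠ n in UF, a n < x ω n ∧ x ω n < a (n + 1) ∧ b (n + 1) < y ω n ∧ y ω n < b n

/-- marked points to the left and to the right of `d` -/
structure Pt (D : Set ℝ) (d : ℝ) (x y : ℚ → ℕ → ℝ) : Prop where
  mem : ∀ ω n, x ω n ∈ D ∧ y ω n ∈ D
  mono : ∀ ω ω', ω < ω' → ∀ᶠ n in UF, x ω n < x ω' n ∧ y ω n < y ω' n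
  sep : ∃ a b, Sep D d x y a b

/-- `f` carries the marked pairs at `d` to marked pairs at `f d` -/
def Into (X Y : ℝ → ℚ → ℕ → ℝ) (f : ℝ → ℝ) (d : ℝ) : Prop :=
  ∀ ω, ∃ ω', ∀ᶠ n in UF, f (X d ω n) = X (f d) ω' n ∧ f (Y d ω n) = Y (f d) ω' n

/-- marked pairs at every real number, respected by the base group -/
structure Link (L : Subgroup (ℝ ≃o ℝ)) (D : Set ℝ) (X Y : ℝ → ℚ → ℕ → ℝ) : Prop where
  pt : ∀ d, Pt D d (X d) (Y d)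
  into : ∀ l ∈ L, ∀ d, Into X Y l d

/-- the elements of the final group -/
structure Hat (L : Subgroup (ℝ ≃o ℝ)) (X Y : ℝ → ℚ → ℕ → ℝ) (f : ℝ ≃o ℝ) : Prop where
  bdd : ∃ t₁ t₂ : ℝ, ∀ s, (s < t₁ ∨ t₂ < s) → f s = s
  loc : ∃ S : Finset ℝ, ∀ x, x ∉ S → ∃ l ∈ L, ∀ᶠ t in 𝓝 x, f t = l t
  into : ∀ d, Into X Y f d ∧ Into X Y (f⁻¹ : ℝ ≃o ℝ) d

end Pool.Agent.Lib.MP_31a5b6_al.R
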