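import Pool.Agent.Lib.MP_31a5b6_al.R.Defs

/-! Extension of automorphisms of the rationals to the reals; limits of orbits. -/

set_option autoImplicit false

namespace Pool.Agent.Lib.MP_31a5b6_al.R

open Filter Topology

/-- the supremum of the `f q`, `q < x` -/
noncomputable def extR0 (f : ℚ ≃o ℚ) (x : ℝ) : ℝ :=
  sSup ((fun q : ℚ => ((f q : ℚ) : ℝ)) '' {q | (q : ℝ) < x})

theorem extR_le (f : ℚ ≃o ℚ) {x : ℝ} {r : ℚ} (h : x ≤ r) : extR0 f x ≤ ((f r : ℚ) : ℝ) := by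
  obtain ⟨q, hq⟩ := exists_rat_lt x
  refine csSup_le ⟨_, q, hq, rfl⟩ ?_
  rintro _ ⟨p, hp, rfl⟩
  have h1 : (p : ℝ) ≤ r := (le_of_lt hp).trans h
  exact Rat.cast_le.mpr (f.monotone (Rat.cast_le.mp h1))

theorem extR_ge (f : ℚ ≃o ℚ) {x : ℝ} {q : ℚ} (h : (q : ℝ) < x) : ((f q : ℚ) : ℝ) ≤ extR0 f x := by
  obtain ⟨r, hr⟩ := exists_rat_gt x
  refine le_csSup ⟨((f r : ℚ) : ℝ), ?_⟩ ⟨q, h, rfl⟩
  rintro _ ⟨p, hp, rfl⟩
  have h1 : (p : ℝ) ≤ r := (le_of_lt hp).trans hr.le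
  exact Rat.cast_le.mpr (f.monotone (Rat.cast_le.mp h1))

theorem extR_rat (f : ℚ ≃o ℚ) (q : ℚ) : extR0 f q = ((f q : ℚ) : ℝ) := by
  refine le_antisymm (extR_le f le_rfl) (le_of_forall_lt fun t ht => ?_)
  obtain ⟨s, hs1, hs2⟩ := exists_rat_btwn ht
  have h1 : f.symm s < q := by
    rw [OrderIso.symm_apply_lt]
    exact Rat.cast_lt.mp hs2
  have h2 := extR_ge f (x := q) (Rat.cast_lt.mpr h1)
  rw [OrderIso.apply_symm_apply] at h2
  exact hs1.trans_le h2

theorem extR_strictMono (f : ℚ ≃o ℚ) : StrictMono (extR0 f) := by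
  intro x y hxy
  obtain ⟨q, h1, h2⟩ := exists_rat_btwn hxy
  obtain ⟨r, h3, h4⟩ := exists_rat_btwn h2
  exact (extR_le f h1.le).trans_lt
    ((Rat.cast_lt.mpr (f.strictMono (Rat.cast_lt.mp h3))).trans_le (extR_ge f h4))

theorem extR_eq_self {h : ℝ → ℝ} (hm : Monotone h) (hq : ∀ q : ℚ, h q = q) (x : ℝ) : h x = x := by
  refine le_antisymm (le_of_forall_gt fun t ht => ?_) (le_of_forall_lt fun t ht => ?_)
  · obtain ⟨q, h1, h2⟩ := exists_rat_btwn ht
    exact ((hm h1.le).trans_eq (hq q)).trans_lt h2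
  · obtain ⟨q, h1, h2⟩ := exists_rat_btwn ht
    exact h1.trans_le ((hq q).symm.trans_le (hm h2.le))

theorem extR_inv (f : ℚ ≃o ℚ) (y : ℝ) : extR0 f (extR0 f.symm y) = y := by
  refine extR_eq_self (h := fun y => extR0 f (extR0 f.symm y))
    ((extR_strictMono f).monotone.comp (extR_strictMono f.symm).monotone) (fun q => ?_) y
  rw [extR_rat, extR_rat, OrderIso.apply_symm_apply]

/-- the extension as an order automorphism of the line -/
noncomputable def extR1 (f : ℚ ≃o ℚ) : ℝ ≃o ℝ :=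
  (extR_strictMono f).orderIsoOfRightInverse _ (extR0 f.symm) (extR_inv f)

theorem extR1_rat (f : ℚ ≃o ℚ) (q : ℚ) : extR1 f q = ((f q : ℚ) : ℝ) := extR_rat f q

theorem extR_unique {F G : ℝ ≃o ℝ} (h : ∀ q : ℚ, F q = G q) : F = G := by
  ext x
  have h1 := extR_eq_self (h := fun y => G.symm (F y)) (G.symm.monotone.comp F.monotone)
    (fun q => by rw [h q, OrderIso.symm_apply_apply]) x
  exact (G.symm_apply_eq.mp h1)

/-- `F x` is the supremum of the `f q`, `q < x`; two automorphisms of the line that agree on the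
rationals are equal -/
theorem exists_ext : ∃ E : (ℚ ≃o ℚ) →* (ℝ ≃o ℝ),
    (∀ f (q : ℚ), E f (q : ℝ) = ((f q : ℚ) : ℝ)) ∧
    (∀ f g, E (supIso f g) = supIso (E f) (E g)) ∧
    ∀ (f : ℚ ≃o ℚ) (lo hi : Option ℚ), Triv f lo hi →
      Triv (E f) (lo.map (fun q => (q : ℝ))) (hi.map (fun q => (q : ℝ))) := by
  refine ⟨MonoidHom.mk' extR1 fun f g => extR_unique fun q => ?_, extR1_rat,
    fun f g => extR_unique fun q => ?_, fun f lo hi hT s hlo hhi => ?_⟩
  · rw [mul_app, extR1_rat, extR1_rat, extR1_rat, mul_app]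
  · change extR1 (supIso f g) q = supIso (extR1 f) (extR1 g) q
    rw [supIso_apply, extR1_rat, extR1_rat, extR1_rat, supIso_apply, Rat.cast_max]
  · change extR1 f s = s
    have hlo' : ∀ a, lo = some a → (a : ℝ) ≤ s := fun a ha => hlo a (by rw [ha]; rfl)
    have hhi' : ∀ b, hi = some b → s ≤ (b : ℝ) := fun b hb => hhi b (by rw [hb]; rfl)
    refine le_antisymm (le_of_forall_gt fun t ht => ?_) (le_of_forall_lt fun t ht => ?_)
    · obtain ⟨q, h1, h2, h3⟩ : ∃ q : ℚ, s ≤ q ∧ (q : ℝ) < t ∧ ∀ b, hi = some b → q ≤ b := by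
        obtain ⟨q, h1, h2⟩ := exists_rat_btwn ht
        cases hi with
        | none => exact ⟨q, h1.le, h2, fun b hb => by cases hb⟩
        | some b =>
          refine ⟨min q b, ?_, ?_, fun b' hb' => ?_⟩
          · rw [Rat.cast_min]
            exact le_min h1.le (hhi' b rfl)
          · rw [Rat.cast_min]
            exact (min_le_left _ _).trans_lt h2
          · cases hb'
            exact min_le_right _ _
      have h4 : f q = q := hT q (fun a ha => Rat.cast_le.mp ((hlo' a ha).trans h1)) h3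
      have h5 := (extR1 f).monotone h1
      rw [extR1_rat, h4] at h5
      exact h5.trans_lt h2
    · obtain ⟨q, h1, h2, h3⟩ : ∃ q : ℚ, (q : ℝ) ≤ s ∧ t < q ∧ ∀ a, lo = some a → a ≤ q := by
        obtain ⟨q, h1, h2⟩ := exists_rat_btwn ht
        cases lo with
        | none => exact ⟨q, h2.le, h1, fun b hb => by cases hb⟩
        | some a =>
          refine ⟨max q a, ?_, ?_, fun b' hb' => ?_⟩
          · rw [Rat.cast_max]
            exact max_le h2.le (hlo' a rfl)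
          · rw [Rat.cast_max]
            exact h1.trans_le (le_max_left _ _)
          · cases hb'
            exact le_max_right _ _
      have h4 : f q = q := hT q h3 (fun b hb => Rat.cast_le.mp (h1.trans (hhi' b hb)))
      have h5 := (extR1 f).monotone h1
      rw [extR1_rat, h4] at h5
      exact h2.trans_le h5

theorem orbit_up (F : ℝ ≃o ℝ) (x d : ℝ) (hx : x ≤ F x) (hd : ∀ n : ℕ, (F ^ n) x ≤ d) :
    ∃ σ, F σ = σ ∧ x ≤ σ ∧ ∀ z, (∀ n : ℕ, (F ^ n) x ≤ z) → σ ≤ z := by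
  have hb : BddAbove (Set.range fun n : ℕ => (F ^ n) x) := ⟨d, by rintro _ ⟨n, rfl⟩; exact hd n⟩
  have h1 : ∀ n : ℕ, (F ^ n) x ≤ ⨆ n : ℕ, (F ^ n) x := fun n => le_ciSup hb n
  have h0 : x ≤ ⨆ n : ℕ, (F ^ n) x := h1 0
  refine ⟨⨆ n : ℕ, (F ^ n) x, le_antisymm ?_ (ciSup_le fun n => ?_), h0, fun z hz => ciSup_le hz⟩
  · rw [← OrderIso.le_symm_apply]
    refine ciSup_le fun n => ?_
    rw [OrderIso.le_symm_apply, ← pow_succ_app]
    exact h1 _
  · cases n with
    | zero => exact hx.trans (F.monotone h0)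
    | succ n =>
      rw [pow_succ_app]
      exact F.monotone (h1 n)

theorem orbit_down (F : ℝ ≃o ℝ) (x d : ℝ) (hx : F x ≤ x) (hd : ∀ n : ℕ, d ≤ (F ^ n) x) :
    ∃ σ, F σ = σ ∧ σ ≤ x ∧ ∀ z, (∀ n : ℕ, z ≤ (F ^ n) x) → z ≤ σ := by
  have hb : BddBelow (Set.range fun n : ℕ => (F ^ n) x) := ⟨d, by rintro _ ⟨n, rfl⟩; exact hd n⟩
  have h1 : ∀ n : ℕ, ⨅ n : ℕ, (F ^ n) x ≤ (F ^ n) x := fun n => ciInf_le hb n
  have h0 : ⨅ n : ℕ, (F ^ n) x ≤ x := h1 0
  refine ⟨⨅ n : ℕ, (F ^ n) x, le_antisymm (le_ciInf fun n => ?_) ?_, h0, fun z hz => le_ciInf hz⟩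
  · cases n with
    | zero => exact (F.monotone h0).trans hx
    | succ n =>
      rw [pow_succ_app]
      exact F.monotone (h1 n)
  · rw [← OrderIso.symm_apply_le]
    refine le_ciInf fun n => ?_
    rw [OrderIso.symm_apply_le, ← pow_succ_app]
    exact h1 _

end Pool.Agent.Lib.MP_31a5b6_al.R
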