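import Pool.Agent.Lib.MP_31a5b6_al.R.Defs

/-! The limit of a sequence of automorphisms that stabilises away from one point. -/

set_option autoImplicit false

namespace Pool.Agent.Lib.MP_31a5b6_al.R

open Filter Topology

theorem glue_lim (H : ℕ → ℝ ≃o ℝ) (r s : ℝ) (a b : ℕ → ℝ) (ha : Monotone a) (hb : Antitone b)
    (har : ∀ k, a k < r) (hrb : ∀ k, r < b k) (hal : Tendsto a atTop (𝓝 r))
    (hbl : Tendsto b atTop (𝓝 r)) (has : ∀ k, H k (a k) < s) (hsb : ∀ k, s < H k (b k))
    (hal' : Tendsto (fun k => H k (a k)) atTop (𝓝 s))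
    (hbl' : Tendsto (fun k => H k (b k)) atTop (𝓝 s))
    (hH : ∀ k x, (x ≤ a k ∨ b k ≤ x) → H (k + 1) x = H k x) :
    ∃ f : ℝ ≃o ℝ, f r = s ∧ ∀ k x, (x ≤ a k ∨ b k ≤ x) → f x = H k x := by
  classical
  have mono : ∀ k m x, k ≤ m → (x ≤ a k ∨ b k ≤ x) → (x ≤ a m ∨ b m ≤ x) := fun k m x hkm h =>
    h.imp (fun h => h.trans (ha hkm)) (fun h => (hb hkm).trans h)
  have stab : ∀ k m x, k ≤ m → (x ≤ a k ∨ b k ≤ x) → H m x = H k x := by
    intro k m x hkm h
    induction m, hkm using Nat.le_induction with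
    | base => rfl
    | succ m hm ih => rw [hH m x (mono k m x hm h), ih]
  have ex : ∀ x, x ≠ r → ∃ k, x ≤ a k ∨ b k ≤ x := by
    intro x hx
    rcases lt_or_gt_of_ne hx with h | h
    · obtain ⟨k, hk⟩ := (hal.eventually (lt_mem_nhds h)).exists
      exact ⟨k, Or.inl hk.le⟩
    · obtain ⟨k, hk⟩ := (hbl.eventually (gt_mem_nhds h)).exists
      exact ⟨k, Or.inr hk.le⟩
  let f : ℝ → ℝ := fun x => if h : ∃ k, x ≤ a k ∨ b k ≤ x then H h.choose x else s
  have hf : ∀ k x, (x ≤ a k ∨ b k ≤ x) → f x = H k x := by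
    intro k x h
    have h' : ∃ k, x ≤ a k ∨ b k ≤ x := ⟨k, h⟩
    have e : f x = H h'.choose x := dif_pos h'
    rw [e, ← stab _ (max k h'.choose) x (le_max_right _ _) h'.choose_spec,
      stab k _ x (le_max_left _ _) h]
  have hr : f r = s := by
    refine dif_neg ?_
    rintro ⟨k, h | h⟩
    · exact absurd (har k) (not_lt.2 h)
    · exact absurd (hrb k) (not_lt.2 h)
  have hsm : StrictMono f := by
    intro x y hxy
    by_cases hx : x = r
    · subst hx
      obtain ⟨k, hk⟩ := ex y hxy.ne'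
      rw [hr, hf k y hk]
      rcases hk with h | h
      · exact absurd (hxy.trans_le h) (not_lt.2 (har k).le)
      · exact (hsb k).trans_le ((H k).monotone h)
    by_cases hy : y = r
    · subst hy
      obtain ⟨k, hk⟩ := ex x hx
      rw [hr, hf k x hk]
      rcases hk with h | h
      · exact ((H k).monotone h).trans_lt (has k)
      · exact absurd (h.trans_lt hxy) (not_lt.2 (hrb k).le)
    obtain ⟨k, hk⟩ := ex x hx
    obtain ⟨m, hm⟩ := ex y hy
    rw [hf (max k m) x (mono k _ x (le_max_left _ _) hk),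
      hf (max k m) y (mono m _ y (le_max_right _ _) hm)]
    exact (H _).strictMono hxy
  have hsurj : Function.Surjective f := by
    intro y
    rcases lt_trichotomy y s with h | h | h
    · obtain ⟨k, hk⟩ := (hal'.eventually (lt_mem_nhds h)).exists
      refine ⟨(H k).symm y, ?_⟩
      rw [hf k _ (Or.inl ((H k).symm_apply_le.2 hk.le)), OrderIso.apply_symm_apply]
    · exact ⟨r, hr.trans h.symm⟩
    · obtain ⟨k, hk⟩ := (hbl'.eventually (gt_mem_nhds h)).exists
      refine ⟨(H k).symm y, ?_⟩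
      rw [hf k _ (Or.inr ((H k).le_symm_apply.2 hk.le)), OrderIso.apply_symm_apply]
  exact ⟨hsm.orderIsoOfSurjective f hsurj, hr, hf⟩

end Pool.Agent.Lib.MP_31a5b6_al.R
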