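import Pool.Agent.Lib.MP_31a5b6_al.R.Defs

/-! Every countable set of automorphisms lies in a good subgroup. -/

set_option autoImplicit false

namespace Pool.Agent.Lib.MP_31a5b6_al.R

open Filter Topology

/-- The affine automorphism `t ↦ a + c (t - a)` of the rationals. -/
noncomputable def goodcl_aff (a c : ℚ) (hc : 0 < c) : ℚ ≃o ℚ :=
  StrictMono.orderIsoOfSurjective (fun t => a + c * (t - a))
    (fun x y h => by simp only; nlinarith)
    (fun y => ⟨a + (y - a) / c, by field_simp; ring⟩)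

theorem goodcl_aff_apply (a c : ℚ) (hc : 0 < c) (t : ℚ) :
    goodcl_aff a c hc t = a + c * (t - a) := rfl

theorem goodcl_move_up (a b r s : ℚ) (har : a < r) (hrs : r ≤ s) (hsb : s < b) :
    ∃ f : ℚ ≃o ℚ, f r = s ∧ ∀ t, (t ≤ a ∨ b ≤ t) → f t = t := by
  have h1 : 0 < r - a := by linarith
  have h2 : 0 < b - r := by linarith
  have hl : 0 < (s - a) / (r - a) := div_pos (by linarith) h1
  have hm : 0 < (b - s) / (b - r) := div_pos (by linarith) h2
  have hl1 : 1 ≤ (s - a) / (r - a) := by rw [le_div_iff₀ h1]; linarith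
  have hm1 : (b - s) / (b - r) ≤ 1 := by rw [div_le_iff₀ h2]; linarith
  refine ⟨supIso 1 ((supIso (goodcl_aff a _ hl)⁻¹ (goodcl_aff b _ hm)⁻¹)⁻¹), ?_, ?_⟩
  · rw [supIso_apply, infIso_apply, goodcl_aff_apply, goodcl_aff_apply]
    have e1 : a + (s - a) / (r - a) * (r - a) = s := by field_simp; ring
    have e2 : b + (b - s) / (b - r) * (r - b) = s := by field_simp; ring
    rw [e1, e2, min_self]
    exact max_eq_right hrs
  · intro t ht
    rw [supIso_apply, infIso_apply, goodcl_aff_apply, goodcl_aff_apply]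
    apply max_eq_left
    change _ ≤ t
    rcases ht with ht | ht
    · refine (min_le_left _ _).trans ?_
      nlinarith
    · refine (min_le_right _ _).trans ?_
      nlinarith

theorem move_rat (a b r s : ℚ) (har : a < r) (hrb : r < b) (has : a < s) (hsb : s < b) :
    ∃ f : ℚ ≃o ℚ, f r = s ∧ ∀ t, (t ≤ a ∨ b ≤ t) → f t = t := by
  rcases le_total r s with h | h
  · exact goodcl_move_up a b r s har h hsb
  · obtain ⟨f, h1, h2⟩ := goodcl_move_up a b s r has h hrb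
    refine ⟨f.symm, by rw [← h1]; simp, fun t ht => ?_⟩
    rw [OrderIso.symm_apply_eq, h2 t ht]

/-- the stages of the closure under the group and lattice operations -/
def goodcl_st (S : Set (ℚ ≃o ℚ)) : ℕ → Set (ℚ ≃o ℚ)
  | 0 => S
  | k + 1 => goodcl_st S k ∪ (Set.image2 (· * ·) (goodcl_st S k) (goodcl_st S k) ∪
      ((fun f => f⁻¹) '' goodcl_st S k ∪ Set.image2 supIso (goodcl_st S k) (goodcl_st S k)))

theorem goodcl_cnt {S : Set (ℚ ≃o ℚ)} (hS : S.Countable) (k : ℕ) : (goodcl_st S k).Countable := by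
  induction k with
  | zero => exact hS
  | succ k ih => exact ih.union ((ih.image2 ih _).union ((ih.image _).union (ih.image2 ih _)))

theorem goodcl_mono (S : Set (ℚ ≃o ℚ)) : Monotone (goodcl_st S) :=
  monotone_nat_of_le_succ fun _ => Set.subset_union_left

theorem goodcl_both {S : Set (ℚ ≃o ℚ)} {f g : ℚ ≃o ℚ} (hf : f ∈ ⋃ k, goodcl_st S k)
    (hg : g ∈ ⋃ k, goodcl_st S k) : ∃ k, f ∈ goodcl_st S k ∧ g ∈ goodcl_st S k := by
  obtain ⟨i, hi⟩ := Set.mem_iUnion.1 hf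
  obtain ⟨j, hj⟩ := Set.mem_iUnion.1 hg
  exact ⟨max i j, goodcl_mono S (le_max_left i j) hi, goodcl_mono S (le_max_right i j) hj⟩

theorem exists_good (S : Set (ℚ ≃o ℚ)) (hS : S.Countable) :
    ∃ G : Subgroup (ℚ ≃o ℚ), Good G ∧ S ⊆ G := by
  have hm : ∀ q : ℚ × ℚ × ℚ × ℚ, ∃ l : ℚ ≃o ℚ, q.1 < q.2.2.1 → q.2.2.1 < q.2.1 →
      q.1 < q.2.2.2 → q.2.2.2 < q.2.1 →
      l q.2.2.1 = q.2.2.2 ∧ ∀ s, (s ≤ q.1 ∨ q.2.1 ≤ s) → l s = s := by
    rintro ⟨a, b, x, y⟩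
    by_cases h : a < x ∧ x < b ∧ a < y ∧ y < b
    · obtain ⟨l, hl⟩ := move_rat a b x y h.1 h.2.1 h.2.2.1 h.2.2.2
      exact ⟨l, fun _ _ _ _ => hl⟩
    · exact ⟨1, fun h1 h2 h3 h4 => absurd ⟨h1, h2, h3, h4⟩ h⟩
  choose mv hmv using hm
  let S0 : Set (ℚ ≃o ℚ) := S ∪ ({1} ∪ Set.range mv)
  have h0 : S0.Countable := hS.union ((Set.countable_singleton 1).union (Set.countable_range mv))
  have hsub : S0 ⊆ ⋃ k, goodcl_st S0 k := Set.subset_iUnion (goodcl_st S0) 0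
  let G : Subgroup (ℚ ≃o ℚ) :=
    { carrier := ⋃ k, goodcl_st S0 k
      one_mem' := hsub (Or.inr (Or.inl rfl))
      mul_mem' := fun {f g} hf hg => by
        obtain ⟨k, h1, h2⟩ := goodcl_both hf hg
        exact Set.mem_iUnion.2 ⟨k + 1, Or.inr (Or.inl ⟨f, h1, g, h2, rfl⟩)⟩
      inv_mem' := fun {f} hf => by
        obtain ⟨k, h1⟩ := Set.mem_iUnion.1 hf
        exact Set.mem_iUnion.2 ⟨k + 1, Or.inr (Or.inr (Or.inl ⟨f, h1, rfl⟩))⟩ }
  refine ⟨G, ⟨Set.countable_iUnion (goodcl_cnt h0), fun f hf g hg => ?_,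
    fun a b x y h1 h2 h3 h4 => ?_⟩, fun f hf => hsub (Or.inl hf)⟩
  · obtain ⟨k, h1, h2⟩ := goodcl_both hf hg
    exact Set.mem_iUnion.2 ⟨k + 1, Or.inr (Or.inr (Or.inr ⟨f, h1, g, h2, rfl⟩))⟩
  · exact ⟨mv (a, b, x, y), hsub (Or.inr (Or.inr ⟨_, rfl⟩)), hmv (a, b, x, y) h1 h2 h3 h4⟩

end Pool.Agent.Lib.MP_31a5b6_al.R
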