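import Pool.Agent.Lib.MP_31a5b6_al.R.Defs

/-! Calculus of the linking condition. -/

set_option autoImplicit false

namespace Pool.Agent.Lib.MP_31a5b6_al.R

open Filter Topology

variable {D : Set ℝ} {X Y : ℝ → ℚ → ℕ → ℝ}

theorem Pt.lim {d : ℝ} {x y : ℚ → ℕ → ℝ} (h : Pt D d x y) (ω : ℚ) :
    Tendsto (x ω) UF (𝓝 d) ∧ Tendsto (y ω) UF (𝓝 d) ∧ ∀ᶠ n in UF, x ω n < d ∧ d < y ω n := by
  obtain ⟨a, b, hs⟩ := h.sep
  have e : ∀ᶠ n in UF, x ω n < d ∧ d < y ω n :=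
    (hs.ann ω).mono fun n hn =>
      ⟨hn.2.1.trans (hs.mem (n + 1)).2.2.1, (hs.mem (n + 1)).2.2.2.trans hn.2.2.1⟩
  refine ⟨?_, ?_, e⟩
  · exact tendsto_of_tendsto_of_tendsto_of_le_of_le' (hs.alim.mono_left UF_le) tendsto_const_nhds
      ((hs.ann ω).mono fun n hn => hn.1.le) (e.mono fun n hn => hn.1.le)
  · exact tendsto_of_tendsto_of_tendsto_of_le_of_le' tendsto_const_nhds (hs.blim.mono_left UF_le)
      (e.mono fun n hn => hn.2.le) ((hs.ann ω).mono fun n hn => hn.2.2.2.le)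

theorem into_congr (hp : ∀ d, Pt D d (X d) (Y d)) {f g : ℝ → ℝ} {d : ℝ}
    (e : ∀ᶠ t in 𝓝 d, f t = g t) (h : Into X Y g d) : Into X Y f d := by
  intro ω
  obtain ⟨ω', h'⟩ := h ω
  obtain ⟨l1, l2, -⟩ := (hp d).lim ω
  refine ⟨ω', ?_⟩
  filter_upwards [h', l1.eventually e, l2.eventually e] with n a1 a2 a3
  rw [a2, a3, e.self_of_nhds]
  exact a1

theorem into_comp {f g : ℝ → ℝ} {d : ℝ} (hg : Into X Y g d) (hf : Into X Y f (g d)) :
    Into X Y (fun t => f (g t)) d := by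
  intro ω
  obtain ⟨ω₁, h1⟩ := hg ω
  obtain ⟨ω₂, h2⟩ := hf ω₁
  refine ⟨ω₂, ?_⟩
  filter_upwards [h1, h2] with n a1 a2
  rw [a1.1, a1.2]
  exact a2

theorem hata_le (hp : ∀ d, Pt D d (X d) (Y d)) (d : ℝ) {ω ω' : ℚ} (h : ω ≤ ω') :
    ∀ᶠ n in UF, X d ω n ≤ X d ω' n ∧ Y d ω n ≤ Y d ω' n := by
  rcases h.eq_or_lt with rfl | h
  · exact Eventually.of_forall fun n => ⟨le_rfl, le_rfl⟩
  · exact ((hp d).mono _ _ h).mono fun n hn => ⟨hn.1.le, hn.2.le⟩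

theorem hata_ev_lt (f g : ℝ ≃o ℝ) {d : ℝ} (h : f d < g d) : ∀ᶠ t in 𝓝 d, f t < g t :=
  f.continuous.continuousAt.eventually_lt g.continuous.continuousAt h

theorem into_max (hp : ∀ d, Pt D d (X d) (Y d)) (f g : ℝ ≃o ℝ) {d : ℝ} (hf : Into X Y f d)
    (hg : Into X Y g d) : Into X Y (fun t => max (f t) (g t)) d := by
  rcases lt_trichotomy (f d) (g d) with h | h | h
  · exact into_congr hp ((hata_ev_lt f g h).mono fun t ht => max_eq_right ht.le) hg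
  · intro ω
    obtain ⟨ω₁, h1⟩ := hf ω
    obtain ⟨ω₂, h2⟩ := hg ω
    rw [← h] at h2
    have e : max (f d) (g d) = f d := max_eq_left h.ge
    rcases le_total ω₁ ω₂ with c | c
    · refine ⟨ω₂, ?_⟩
      filter_upwards [h1, h2, hata_le hp (f d) c] with n a1 a2 a3
      rw [e, a1.1, a1.2, a2.1, a2.2]
      exact ⟨max_eq_right a3.1, max_eq_right a3.2⟩
    · refine ⟨ω₁, ?_⟩
      filter_upwards [h1, h2, hata_le hp (f d) c] with n a1 a2 a3
      rw [e, a1.1, a1.2, a2.1, a2.2]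
      exact ⟨max_eq_left a3.1, max_eq_left a3.2⟩
  · exact into_congr hp ((hata_ev_lt g f h).mono fun t ht => max_eq_left ht.le) hf

theorem into_min (hp : ∀ d, Pt D d (X d) (Y d)) (f g : ℝ ≃o ℝ) {d : ℝ} (hf : Into X Y f d)
    (hg : Into X Y g d) : Into X Y (fun t => min (f t) (g t)) d := by
  rcases lt_trichotomy (f d) (g d) with h | h | h
  · exact into_congr hp ((hata_ev_lt f g h).mono fun t ht => min_eq_left ht.le) hf
  · intro ω
    obtain ⟨ω₁, h1⟩ := hf ω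
    obtain ⟨ω₂, h2⟩ := hg ω
    rw [← h] at h2
    have e : min (f d) (g d) = f d := min_eq_left h.le
    rcases le_total ω₁ ω₂ with c | c
    · refine ⟨ω₁, ?_⟩
      filter_upwards [h1, h2, hata_le hp (f d) c] with n a1 a2 a3
      rw [e, a1.1, a1.2, a2.1, a2.2]
      exact ⟨min_eq_left a3.1, min_eq_left a3.2⟩
    · refine ⟨ω₂, ?_⟩
      filter_upwards [h1, h2, hata_le hp (f d) c] with n a1 a2 a3
      rw [e, a1.1, a1.2, a2.1, a2.2]
      exact ⟨min_eq_right a3.1, min_eq_right a3.2⟩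
  · exact into_congr hp ((hata_ev_lt g f h).mono fun t ht => min_eq_right ht.le) hg

theorem loc_inv (f l : ℝ ≃o ℝ) (x : ℝ) (e : ∀ᶠ t in 𝓝 x, f t = l t) :
    ∀ᶠ t in 𝓝 (f x), f⁻¹ t = l⁻¹ t := by
  have h1 : Tendsto (f⁻¹ : ℝ ≃o ℝ) (𝓝 (f x)) (𝓝 x) := by
    have := (f⁻¹ : ℝ ≃o ℝ).continuous.tendsto (f x)
    rwa [inv_app_app] at this
  filter_upwards [h1.eventually e] with t ht
  rw [app_inv_app] at ht
  rw [← inv_app_app l (f⁻¹ t), ← ht]

end Pool.Agent.Lib.MP_31a5b6_al.R
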