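import Pool.Agent.Lib.MP_31a5b6_al.R.NT
import Pool.Agent.Lib.MP_31a5b6_al.R.Glue

/-! An element with one singular point that moves a given real to a given real. -/

set_option autoImplicit false

namespace Pool.Agent.Lib.MP_31a5b6_al.R

open Filter Topology

variable {L : Subgroup (ℝ ≃o ℝ)} {D : Set ℝ}

/-- finite sets of indices on which two families of conditions hold, exhausting the rationals -/
theorem move_idx (P : ℕ → ℚ → Prop) (Q : ℕ → ℚ → ℚ → Prop) (hP : ∀ i, ∀ᶠ n in UF, P n i)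
    (hQ : ∀ i j, ∀ᶠ n in UF, Q n i j) :
    ∃ I : ℕ → Finset ℚ, (∀ n, ∀ i ∈ I n, P n i) ∧ (∀ n, ∀ i ∈ I n, ∀ j ∈ I n, Q n i j) ∧
      ∀ i, ∀ᶠ n in UF, i ∈ I n := by
  classical
  obtain ⟨q, hq⟩ := exists_surjective_nat ℚ
  refine ⟨fun n => ((Finset.range n).filter (fun k => ∀ k' ≤ k, ∀ k'' ≤ k,
    P n (q k') ∧ Q n (q k') (q k''))).image q, ?_, ?_, ?_⟩
  · intro n i hi
    obtain ⟨k, hk, rfl⟩ := Finset.mem_image.1 hi
    exact ((Finset.mem_filter.1 hk).2 k le_rfl k le_rfl).1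
  · intro n i hi j hj
    obtain ⟨k, hk, rfl⟩ := Finset.mem_image.1 hi
    obtain ⟨k', hk', rfl⟩ := Finset.mem_image.1 hj
    rcases le_total k k' with c | c
    · exact ((Finset.mem_filter.1 hk').2 k c k' le_rfl).2
    · exact ((Finset.mem_filter.1 hk).2 k le_rfl k' c).2
  · intro i
    obtain ⟨k, rfl⟩ := hq i
    have h1 : ∀ᶠ n in UF, ∀ k' ∈ Finset.range (k + 1), ∀ k'' ∈ Finset.range (k + 1),
        P n (q k') ∧ Q n (q k') (q k'') := by
      rw [eventually_all_finset]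
      intro k' _
      rw [eventually_all_finset]
      intro k'' _
      exact (hP _).and (hQ _ _)
    filter_upwards [h1, (eventually_gt_atTop k).filter_mono UF_le] with n a1 a2
    refine Finset.mem_image.2 ⟨k, Finset.mem_filter.2 ⟨Finset.mem_range.2 a2, ?_⟩, rfl⟩
    intro k' hk' k'' hk''
    exact a1 k' (Finset.mem_range.2 (by omega)) k'' (Finset.mem_range.2 (by omega))

theorem RB.move_real (h : RB L D) (r s A B : ℝ) (x y x' y' : ℚ → ℕ → ℝ) (hr : Pt D r x y)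
    (hs : Pt D s x' y') (h1 : A < r) (h2 : r < B) (h3 : A < s) (h4 : s < B) :
    ∃ f : ℝ ≃o ℝ, f r = s ∧ (∀ t, (t ≤ A ∨ B ≤ t) → f t = t) ∧
      (∀ t, t ≠ r → ∃ l ∈ L, ∀ᶠ u in 𝓝 t, f u = l u) ∧
      ∀ ω, ∀ᶠ n in UF, f (x ω n) = x' ω n ∧ f (y ω n) = y' ω n := by
  obtain ⟨a, b, sr⟩ := hr.sep
  obtain ⟨a', b', ss⟩ := hs.sep
  obtain ⟨A₀, hA₀, A1, A2⟩ := h.dense A (min r s) (lt_min h1 h3)
  obtain ⟨B₀, hB₀, B1, B2⟩ := h.dense (max r s) B (max_lt h2 h4)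
  have hN : ∀ᶠ n in atTop, (A₀ < a n ∧ A₀ < a' n) ∧ b n < B₀ ∧ b' n < B₀ :=
    ((sr.alim.eventually (lt_mem_nhds (A2.trans_le (min_le_left _ _)))).and
      (ss.alim.eventually (lt_mem_nhds (A2.trans_le (min_le_right _ _))))).and
    ((sr.blim.eventually (gt_mem_nhds ((le_max_left _ _).trans_lt B1))).and
      (ss.blim.eventually (gt_mem_nhds ((le_max_right _ _).trans_lt B1))))
  obtain ⟨N, ⟨n1, n2⟩, n3, n4⟩ := hN.exists
  have ab : ∀ n, a n < b n := fun n => (sr.mem n).2.2.1.trans (sr.mem n).2.2.2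
  have ab' : ∀ n, a' n < b' n := fun n => (ss.mem n).2.2.1.trans (ss.mem n).2.2.2
  -- the starting element
  obtain ⟨g₁, hg₁, e1, e2⟩ := h.nt1 A₀ B₀ (a N) (a' N) 1 L.one_mem hA₀ hB₀ (sr.mem N).1
    (ss.mem N).1 n1 ((ab N).trans n3) n2 ((ab' N).trans n4)
  obtain ⟨g₂, hg₂, e3, e4⟩ := h.nt1 (a N) B₀ (b N) (b' N) g₁ hg₁ (sr.mem N).1 hB₀
    (sr.mem N).2.1 (ss.mem N).2.1 (ab N) n3 (by rw [e2]; exact ab' N)
    (by rw [e1 B₀ (Or.inr le_rfl)]; exact n4)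
  have e5 : g₂ (a N) = a' N := by rw [e3 _ (Or.inl le_rfl), e2]
  have e6 : ∀ t, (t ≤ A₀ ∨ B₀ ≤ t) → g₂ t = t := by
    intro t ht
    rw [e3 t (ht.imp (fun c => c.trans n1.le) id), e1 t ht, one_app]
  -- the finite index sets
  obtain ⟨I, I1, I2, I3⟩ := move_idx
    (fun n i => (a n < x i n ∧ x i n < a (n + 1) ∧ b (n + 1) < y i n ∧ y i n < b n) ∧
      (a' n < x' i n ∧ x' i n < a' (n + 1) ∧ b' (n + 1) < y' i n ∧ y' i n < b' n))
    (fun n i j => i < j → x i n < x j n ∧ y i n < y j n ∧ x' i n < x' j n ∧ y' i n < y' j n)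
    (fun i => (sr.ann i).and (ss.ann i)) (by
      intro i j
      by_cases c : i < j
      · filter_upwards [hr.mono i j c, hs.mono i j c] with n c1 c2 _
        exact ⟨c1.1, c1.2, c2.1, c2.2⟩
      · exact Eventually.of_forall fun n c' => absurd c' c)
  have hstep : ∀ (n : ℕ) (g : ℝ ≃o ℝ), ∃ g' : ℝ ≃o ℝ,
      (g ∈ L ∧ g (a n) = a' n ∧ g (b n) = b' n) →
      ((g' ∈ L ∧ g' (a (n + 1)) = a' (n + 1) ∧ g' (b (n + 1)) = b' (n + 1)) ∧
        (∀ t, (t ≤ a n ∨ b n ≤ t) → g' t = g t) ∧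
        ∀ i ∈ I n, g' (x i n) = x' i n ∧ g' (y i n) = y' i n) := by
    intro n g
    by_cases c : g ∈ L ∧ g (a n) = a' n ∧ g (b n) = b' n
    · obtain ⟨c1, c2, c3⟩ := c
      obtain ⟨g', d1, d2, d3, d4, d5⟩ := h.move_step (I n) (fun i => x i n) (fun i => y i n)
        (fun i => x' i n) (fun i => y' i n) (a n) (a (n + 1)) (b (n + 1)) (b n) (a' (n + 1))
        (b' (n + 1)) g c1 (sr.mem n).1 (sr.mem (n + 1)).1 (sr.mem (n + 1)).2.1 (sr.mem n).2.1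
        (ss.mem (n + 1)).1 (ss.mem (n + 1)).2.1 (sr.amono (Nat.lt_succ_self n)) (ab (n + 1))
        (sr.banti (Nat.lt_succ_self n)) (by rw [c2]; exact ss.amono (Nat.lt_succ_self n))
        (ab' (n + 1)) (by rw [c3]; exact ss.banti (Nat.lt_succ_self n))
        (fun i hi => ⟨(hr.mem i n).1, (I1 n i hi).1.1, (I1 n i hi).1.2.1⟩)
        (fun i hi => ⟨(hr.mem i n).2, (I1 n i hi).1.2.2.1, (I1 n i hi).1.2.2.2⟩)
        (fun i hi => ⟨(hs.mem i n).1, by rw [c2]; exact (I1 n i hi).2.1, (I1 n i hi).2.2.1⟩)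
        (fun i hi => ⟨(hs.mem i n).2, (I1 n i hi).2.2.2.1, by
          rw [c3]; exact (I1 n i hi).2.2.2.2⟩)
        (I2 n)
      exact ⟨g', fun _ => ⟨⟨d1, d3, d4⟩, d2, d5⟩⟩
    · exact ⟨1, fun c' => absurd c' c⟩
  choose nx hnx using hstep
  let H : ℕ → ℝ ≃o ℝ := fun k => Nat.rec g₂ (fun k g => nx (N + k) g) k
  have H0 : H 0 = g₂ := rfl
  have Hs : ∀ k, H (k + 1) = nx (N + k) (H k) := fun k => rfl
  have HI : ∀ k, H k ∈ L ∧ H k (a (N + k)) = a' (N + k) ∧ H k (b (N + k)) = b' (N + k) := by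
    intro k
    induction k with
    | zero => exact ⟨hg₂, e5, e4⟩
    | succ k ih => exact (hnx (N + k) (H k) ih).1
  have tN : Tendsto (fun k => N + k) atTop atTop :=
    tendsto_atTop_mono (fun k => Nat.le_add_left k N) tendsto_id
  obtain ⟨f, f1, f2⟩ := glue_lim H r s (fun k => a (N + k)) (fun k => b (N + k))
    (fun i j c => sr.amono.monotone (by omega)) (fun i j c => sr.banti.antitone (by omega))
    (fun k => (sr.mem _).2.2.1) (fun k => (sr.mem _).2.2.2) (sr.alim.comp tN) (sr.blim.comp tN)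
    (fun k => by rw [(HI k).2.1]; exact (ss.mem _).2.2.1)
    (fun k => by rw [(HI k).2.2]; exact (ss.mem _).2.2.2)
    ((ss.alim.comp tN).congr fun k => (HI k).2.1.symm)
    ((ss.blim.comp tN).congr fun k => (HI k).2.2.symm)
    (fun k t ht => (hnx (N + k) (H k) (HI k)).2.1 t ht)
  refine ⟨f, f1, ?_, ?_, ?_⟩
  · intro t ht
    have ht' : t ≤ A₀ ∨ B₀ ≤ t := ht.imp (fun c => c.trans A1.le) (fun c => B2.le.trans c)
    rw [f2 0 t (ht'.imp (fun c => c.trans n1.le) (fun c => n3.le.trans c)), H0, e6 t ht']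
  · intro t ht
    rcases lt_or_gt_of_ne ht with c | c
    · obtain ⟨k, hk⟩ := ((sr.alim.comp tN).eventually (lt_mem_nhds c)).exists
      exact ⟨H k, (HI k).1, (gt_mem_nhds hk : ∀ᶠ u in 𝓝 t, u < a (N + k)).mono
        fun u hu => f2 k u (Or.inl hu.le)⟩
    · obtain ⟨k, hk⟩ := ((sr.blim.comp tN).eventually (gt_mem_nhds c)).exists
      exact ⟨H k, (HI k).1, (lt_mem_nhds hk : ∀ᶠ u in 𝓝 t, b (N + k) < u).mono
        fun u hu => f2 k u (Or.inr hu.le)⟩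
  · intro ω
    filter_upwards [I3 ω, (eventually_ge_atTop N).filter_mono UF_le] with n c1 c2
    obtain ⟨k, rfl⟩ := Nat.exists_eq_add_of_le c2
    have d := (hnx (N + k) (H k) (HI k)).2.2 ω c1
    rw [← Hs] at d
    rw [f2 (k + 1) _ (Or.inl (I1 _ ω c1).1.2.1.le), f2 (k + 1) _ (Or.inr (I1 _ ω c1).1.2.2.1.le)]
    exact d

end Pool.Agent.Lib.MP_31a5b6_al.R
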