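import Pool.Agent.Lib.MP_31a5b6_al.R.HatA
import Pool.Agent.Lib.MP_31a5b6_al.R.Move

/-! The final group is a lattice-ordered group that moves any real to any real. -/

set_option autoImplicit false

namespace Pool.Agent.Lib.MP_31a5b6_al.R

open Filter Topology

variable {L : Subgroup (ℝ ≃o ℝ)} {D : Set ℝ} {X Y : ℝ → ℚ → ℕ → ℝ}

theorem hat_one (hk : Link L D X Y) : Hat L X Y 1 := by
  refine ⟨⟨0, 0, fun s _ => rfl⟩, ⟨∅, fun x _ => ⟨1, L.one_mem, Eventually.of_forall fun t => rfl⟩⟩,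
    fun d => ⟨hk.into 1 L.one_mem d, ?_⟩⟩
  rw [inv_one]
  exact hk.into 1 L.one_mem d

theorem Hat.mul {f g : ℝ ≃o ℝ} (hf : Hat L X Y f) (hg : Hat L X Y g) : Hat L X Y (f * g) := by
  classical
  refine ⟨?_, ?_, fun d => ⟨?_, ?_⟩⟩
  · obtain ⟨a, b, h1⟩ := hf.bdd
    obtain ⟨a', b', h2⟩ := hg.bdd
    refine ⟨min a a', max b b', fun s hs => ?_⟩
    rcases hs with hs | hs
    · rw [mul_app, h2 s (Or.inl (hs.trans_le (min_le_right _ _))),
        h1 s (Or.inl (hs.trans_le (min_le_left _ _)))]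
    · rw [mul_app, h2 s (Or.inr ((le_max_right _ _).trans_lt hs)),
        h1 s (Or.inr ((le_max_left _ _).trans_lt hs))]
  · obtain ⟨S, h1⟩ := hf.loc
    obtain ⟨S', h2⟩ := hg.loc
    refine ⟨S' ∪ S.image (fun t => g⁻¹ t), fun x hx => ?_⟩
    rw [Finset.mem_union, not_or] at hx
    have hx2 : g x ∉ S := fun h => hx.2 (Finset.mem_image.2 ⟨g x, h, inv_app_app g x⟩)
    obtain ⟨l, hl, e1⟩ := h1 _ hx2
    obtain ⟨l', hl', e2⟩ := h2 _ hx.1
    refine ⟨l * l', L.mul_mem hl hl', ?_⟩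
    filter_upwards [(g.continuous.tendsto x).eventually e1, e2] with t a1 a2
    rw [mul_app, mul_app, a1, a2]
  · exact into_comp (f := f) (g := g) (hg.into d).1 (hf.into (g d)).1
  · rw [mul_inv_rev]
    exact into_comp (f := (g⁻¹ : ℝ ≃o ℝ)) (g := (f⁻¹ : ℝ ≃o ℝ)) (hf.into d).2
      (hg.into (f⁻¹ d)).2

theorem Hat.inv {f : ℝ ≃o ℝ} (hf : Hat L X Y f) : Hat L X Y f⁻¹ := by
  classical
  refine ⟨?_, ?_, fun d => ⟨(hf.into d).2, ?_⟩⟩
  · obtain ⟨a, b, h1⟩ := hf.bdd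
    refine ⟨a, b, fun s hs => ?_⟩
    have := inv_app_app f s
    rwa [h1 s hs] at this
  · obtain ⟨S, h1⟩ := hf.loc
    refine ⟨S.image (fun t => f t), fun x hx => ?_⟩
    have hx2 : f⁻¹ x ∉ S := fun h => hx (Finset.mem_image.2 ⟨_, h, app_inv_app f x⟩)
    obtain ⟨l, hl, e1⟩ := h1 _ hx2
    have := loc_inv f l _ e1
    rw [app_inv_app] at this
    exact ⟨l⁻¹, L.inv_mem hl, this⟩
  · rw [inv_inv]
    exact (hf.into d).1

theorem Hat.sup (h : RB L D) (hk : Link L D X Y) {f g : ℝ ≃o ℝ} (hf : Hat L X Y f)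
    (hg : Hat L X Y g) : Hat L X Y (supIso f g) := by
  classical
  refine ⟨?_, ?_, fun d => ⟨?_, ?_⟩⟩
  · obtain ⟨a, b, h1⟩ := hf.bdd
    obtain ⟨a', b', h2⟩ := hg.bdd
    refine ⟨min a a', max b b', fun s hs => ?_⟩
    rcases hs with hs | hs
    · rw [supIso_apply, h2 s (Or.inl (hs.trans_le (min_le_right _ _))),
        h1 s (Or.inl (hs.trans_le (min_le_left _ _))), max_self]
    · rw [supIso_apply, h2 s (Or.inr ((le_max_right _ _).trans_lt hs)),
        h1 s (Or.inr ((le_max_left _ _).trans_lt hs)), max_self]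
  · obtain ⟨S, h1⟩ := hf.loc
    obtain ⟨S', h2⟩ := hg.loc
    refine ⟨S ∪ S', fun x hx => ?_⟩
    rw [Finset.mem_union, not_or] at hx
    obtain ⟨l, hl, e1⟩ := h1 _ hx.1
    obtain ⟨l', hl', e2⟩ := h2 _ hx.2
    refine ⟨supIso l l', h.sup l hl l' hl', ?_⟩
    filter_upwards [e1, e2] with t a1 a2
    rw [supIso_apply, supIso_apply, a1, a2]
  · exact into_max hk.pt f g (hf.into d).1 (hg.into d).1
  · exact into_min hk.pt f⁻¹ g⁻¹ (hf.into d).2 (hg.into d).2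

theorem Hat.of_loc (hk : Link L D X Y) {f g : ℝ ≃o ℝ} (hf : Hat L X Y f)
    (hb : ∀ s, f s = s → g s = s)
    (hl : ∀ x, (∀ᶠ t in 𝓝 x, g t = f t) ∨ ∀ᶠ t in 𝓝 x, g t = t) : Hat L X Y g := by
  have h1 := hat_one hk
  refine ⟨?_, ?_, fun d => ⟨?_, ?_⟩⟩
  · obtain ⟨a, b, h⟩ := hf.bdd
    exact ⟨a, b, fun s hs => hb s (h s hs)⟩
  · obtain ⟨S, h⟩ := hf.loc
    refine ⟨S, fun x hx => ?_⟩
    rcases hl x with e | e
    · obtain ⟨l, hl', e1⟩ := h x hx
      refine ⟨l, hl', ?_⟩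
      filter_upwards [e, e1] with t a1 a2
      rw [a1, a2]
    · exact ⟨1, L.one_mem, e⟩
  · rcases hl d with e | e
    · exact into_congr hk.pt e (hf.into d).1
    · exact into_congr hk.pt (g := (1 : ℝ ≃o ℝ)) e (h1.into d).1
  · rcases hl (g⁻¹ d) with e | e
    · have := loc_inv g f _ e
      rw [app_inv_app] at this
      exact into_congr hk.pt this (hf.into d).2
    · have := loc_inv g 1 _ e
      rw [app_inv_app] at this
      exact into_congr hk.pt this (h1.into d).2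

theorem hat_move (h : RB L D) (hk : Link L D X Y) (A B r s : ℝ) (h1 : A < r) (h2 : r < B)
    (h3 : A < s) (h4 : s < B) :
    ∃ f : ℝ ≃o ℝ, Hat L X Y f ∧ f r = s ∧ ∀ t, (t ≤ A ∨ B ≤ t) → f t = t := by
  obtain ⟨f, f1, f2, f3, f4⟩ := h.move_real r s A B _ _ _ _ (hk.pt r) (hk.pt s) h1 h2 h3 h4
  refine ⟨f, ⟨⟨A, B, fun t ht => f2 t (ht.imp le_of_lt le_of_lt)⟩,
    ⟨{r}, fun x hx => f3 x (by simpa using hx)⟩, fun d => ⟨?_, ?_⟩⟩, f1, f2⟩
  · by_cases hd : d = r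
    · subst hd
      intro ω
      refine ⟨ω, ?_⟩
      rw [f1]
      exact f4 ω
    · obtain ⟨l, hl, e⟩ := f3 d hd
      exact into_congr hk.pt e (hk.into l hl d)
  · by_cases hd : f⁻¹ d = r
    · have hds : d = s := by rw [← f1, ← hd, app_inv_app]
      intro ω
      refine ⟨ω, ?_⟩
      rw [hd, hds]
      filter_upwards [f4 ω] with n hn
      rw [← hn.1, ← hn.2, inv_app_app, inv_app_app]
      exact ⟨rfl, rfl⟩
    · obtain ⟨l, hl, e⟩ := f3 _ hd
      have := loc_inv f l _ e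
      rw [app_inv_app] at this
      exact into_congr hk.pt this (hk.into l⁻¹ (L.inv_mem hl) d)

end Pool.Agent.Lib.MP_31a5b6_al.R
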