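import Pool.Agent.Lib.MP_31a5b6_al.R.Defs

/-! A countable invariant set, thickened by the rationals, is a copy of the rationals. -/

set_option autoImplicit false

namespace Pool.Agent.Lib.MP_31a5b6_al.R

open Filter Topology

theorem hull_iso (A : Type) [LinearOrder A] [Countable A] [Nonempty A] :
    Nonempty (A ×ₗ ℚ ≃o ℚ) := by
  have : Countable (A ×ₗ ℚ) := inferInstanceAs (Countable (A × ℚ))
  have : Nonempty (A ×ₗ ℚ) := inferInstanceAs (Nonempty (A × ℚ))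
  have : DenselyOrdered (A ×ₗ ℚ) := ⟨fun x y h => by
    rcases Prod.Lex.lt_iff.1 h with h1 | ⟨h1, h2⟩
    · refine ⟨toLex ((ofLex x).1, (ofLex x).2 + 1), Prod.Lex.lt_iff.2 (Or.inr ⟨rfl, ?_⟩),
        Prod.Lex.lt_iff.2 (Or.inl h1)⟩
      simp
    · obtain ⟨q, hq1, hq2⟩ := exists_between h2
      exact ⟨toLex ((ofLex x).1, q), Prod.Lex.lt_iff.2 (Or.inr ⟨rfl, hq1⟩),
        Prod.Lex.lt_iff.2 (Or.inr ⟨h1, hq2⟩)⟩⟩
  have : NoMaxOrder (A ×ₗ ℚ) := ⟨fun x => ⟨toLex ((ofLex x).1, (ofLex x).2 + 1),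
    Prod.Lex.lt_iff.2 (Or.inr ⟨rfl, by simp⟩)⟩⟩
  have : NoMinOrder (A ×ₗ ℚ) := ⟨fun x => ⟨toLex ((ofLex x).1, (ofLex x).2 - 1),
    Prod.Lex.lt_iff.2 (Or.inr ⟨rfl, by simp⟩)⟩⟩
  exact Order.iso_of_countable_dense _ _

/-- restriction to an invariant set -/
def hull_res {Γ Y : Type} [Group Γ] [LinearOrder Y] (σ : Γ →* (Y ≃o Y)) (A : Set Y)
    (hA : ∀ g, ∀ a ∈ A, σ g a ∈ A) (g : Γ) : A ≃o A where
  toFun a := ⟨σ g a, hA g a a.2⟩
  invFun a := ⟨σ g⁻¹ a, hA g⁻¹ a a.2⟩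
  left_inv a := Subtype.ext (by simp only [map_inv]; exact inv_app_app _ _)
  right_inv a := Subtype.ext (by simp only [map_inv]; exact app_inv_app _ _)
  map_rel_iff' := by
    intro a b
    exact (σ g).le_iff_le

theorem hull_core {Γ Y : Type} [Group Γ] [LinearOrder Y] (σ : Γ →* (Y ≃o Y)) (A : Set Y)
    (hc : A.Countable) (hne : A.Nonempty) (hA : ∀ g, ∀ a ∈ A, σ g a ∈ A) :
    ∃ (E : A → ℚ → ℚ) (τ : Γ →* (ℚ ≃o ℚ)), (∀ t, ∃ a q, E a q = t) ∧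
      (∀ a q b r, E a q < E b r ↔ a < b ∨ a = b ∧ q < r) ∧
      ∀ g a q, τ g (E a q) = E ⟨σ g a, hA g a a.2⟩ q := by
  have := hc.to_subtype
  have := hne.to_subtype
  obtain ⟨e⟩ := hull_iso A
  let F : Γ → (ℚ ≃o ℚ) := fun g =>
    e.symm.trans ((Prod.Lex.prodLexCongr (hull_res σ A hA g) (OrderIso.refl ℚ)).trans e)
  have hF : ∀ g (a : A) q, F g (e (toLex (a, q))) = e (toLex (⟨σ g a, hA g a a.2⟩, q)) := by
    intro g a q
    simp only [F, OrderIso.trans_apply, OrderIso.symm_apply_apply]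
    rfl
  have hs : ∀ t, ∃ a q, e (toLex (a, q)) = t := fun t =>
    ⟨(ofLex (e.symm t)).1, (ofLex (e.symm t)).2, e.apply_symm_apply t⟩
  refine ⟨fun a q => e (toLex (a, q)), MonoidHom.mk' F fun f g => ?_, hs, fun a q b r => ?_, hF⟩
  · ext t
    obtain ⟨a, q, rfl⟩ := hs t
    rw [mul_app, hF, hF, hF]
    simp only [map_mul, mul_app]
  · rw [e.lt_iff_lt, Prod.Lex.toLex_lt_toLex]

/-- `A` is the set of all `σ g s`, `s ∈ S`; `A ×ₗ ℚ` is countable, dense, without end points, so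
order isomorphic to the rationals by some `e`; `j a = e (a, 0)`, `τ g` acts on the first
coordinate; `w' = e (a, 1)` -/
theorem hull {Γ Y : Type} [Group Γ] [Countable Γ] [LinearOrder Y] (σ : Γ →* (Y ≃o Y))
    (S : Set Y) (hS : S.Countable) (hne : S.Nonempty) :
    ∃ (A : Set Y) (τ : Γ →* (ℚ ≃o ℚ)) (j : Y → ℚ), S ⊆ A ∧ (∀ g, ∀ a ∈ A, σ g a ∈ A) ∧
      StrictMonoOn j A ∧ (∀ g, ∀ a ∈ A, τ g (j a) = j (σ g a)) ∧
      (∀ f g h, σ h = supIso (σ f) (σ g) → τ h = supIso (τ f) (τ g)) ∧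
      (∀ f (lo hi : Option Y), (∀ a, lo = some a → a ∈ A) → (∀ b, hi = some b → b ∈ A) →
        Triv (σ f) lo hi → Triv (τ f) (lo.map j) (hi.map j)) ∧
      ∀ f, ∀ a ∈ A, σ f a = a → ∃ w', j a < w' ∧ Triv (τ f) (some (j a)) (some w') := by
  classical
  let A : Set Y := {y | ∃ g, ∃ s ∈ S, y = σ g s}
  have hSA : S ⊆ A := fun s hs => ⟨1, s, hs, by rw [map_one, one_app]⟩
  have hA : ∀ g, ∀ a ∈ A, σ g a ∈ A := by
    rintro g _ ⟨h, s, hs, rfl⟩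
    exact ⟨g * h, s, hs, by rw [map_mul, mul_app]⟩
  have hc : A.Countable := by
    refine (Set.Countable.image2 (Set.countable_univ (α := Γ)) hS fun g s => σ g s).mono ?_
    rintro _ ⟨g, s, hs, rfl⟩
    exact ⟨g, trivial, s, hs, rfl⟩
  obtain ⟨E, τ, hs, hlt, hτ⟩ := hull_core σ A hc (hne.mono hSA) hA
  have hle : ∀ a q b r, E a q ≤ E b r → a ≤ b := fun a q b r h => by
    by_contra h2
    exact absurd ((hlt b r a q).2 (Or.inl (not_le.1 h2))) (not_lt.2 h)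
  have hmono : ∀ a b q, a ≤ b → E a q ≤ E b q := fun a b q h => by
    rcases h.eq_or_lt with rfl | h
    · exact le_rfl
    · exact ((hlt a q b q).2 (Or.inl h)).le
  have hfix : ∀ f (c : A) q, σ f c = c → τ f (E c q) = E c q := fun f c q h => by
    rw [hτ]
    congr 1
    exact Subtype.ext h
  let j : Y → ℚ := fun y => if h : y ∈ A then E ⟨y, h⟩ 0 else 0
  have hj : ∀ a (h : a ∈ A), j a = E ⟨a, h⟩ 0 := fun a h => dif_pos h
  refine ⟨A, τ, j, hSA, hA, fun a ha b hb h => ?_, fun g a ha => ?_, fun f g h e => ?_,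
    fun f lo hi h1 h2 h3 s h4 h5 => ?_, fun f a ha h => ⟨E ⟨a, ha⟩ 1, ?_, fun s h4 h5 => ?_⟩⟩
  · rw [hj a ha, hj b hb]
    exact (hlt _ _ _ _).2 (Or.inl h)
  · rw [hj a ha, hj _ (hA g a ha), hτ]
  · ext t
    obtain ⟨a, q, rfl⟩ := hs t
    rw [supIso_apply, hτ, hτ, hτ]
    have e2 : σ h a = max (σ f a) (σ g a) := by rw [e, supIso_apply]
    rcases le_total (σ f a) (σ g a) with h6 | h6
    · rw [max_eq_right (hmono ⟨_, hA f a a.2⟩ ⟨_, hA g a a.2⟩ q h6)]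
      congr 1
      exact Subtype.ext (e2.trans (max_eq_right h6))
    · rw [max_eq_left (hmono ⟨_, hA g a a.2⟩ ⟨_, hA f a a.2⟩ q h6)]
      congr 1
      exact Subtype.ext (e2.trans (max_eq_left h6))
  · obtain ⟨c, q, rfl⟩ := hs s
    refine hfix f c q (h3 c (fun a ha => ?_) fun b hb => ?_)
    · have h6 := h4 (j a) (by rw [ha, Option.map_some])
      rw [hj a (h1 a ha)] at h6
      exact hle _ _ _ _ h6
    · have h6 := h5 (j b) (by rw [hb, Option.map_some])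
      rw [hj b (h2 b hb)] at h6
      exact hle _ _ _ _ h6
  · rw [hj a ha]
    exact (hlt _ _ _ _).2 (Or.inr ⟨rfl, one_pos⟩)
  · obtain ⟨c, q, rfl⟩ := hs s
    have h6 := h4 _ rfl
    rw [hj a ha] at h6
    have e : c = ⟨a, ha⟩ := le_antisymm (hle _ _ _ _ (h5 _ rfl)) (hle _ _ _ _ h6)
    rw [e]
    exact hfix f ⟨a, ha⟩ q h

end Pool.Agent.Lib.MP_31a5b6_al.R
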