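import Pool.Agent.Lib.MP_31a5b6_al.R.Main

/-! The statement on the real line implies the earlier statement on some chain. -/

set_option autoImplicit false

namespace Pool.Agent.Lib.MP_31a5b6_al.R

theorem impl_old :
    ∃ (T : Type) (_ : LinearOrder T) (L : Subgroup (T ≃o T)),
      (∃ a b c : T, a ≠ b ∧ a ≠ c ∧ b ≠ c) ∧
      (∀ f ∈ L, ∀ g ∈ L, (∃ h ∈ L, ∀ t, h t = max (f t) (g t)) ∧
        (∃ h ∈ L, ∀ t, h t = min (f t) (g t))) ∧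
      (∀ r₁ r₂ s₁ s₂ : T, r₁ < r₂ → s₁ < s₂ → ∃ f ∈ L, f r₁ = s₁ ∧ f r₂ = s₂) ∧
      (∀ f ∈ L, ∃ t₁ t₂ : T, ∀ s, (s < t₁ ∨ t₂ < s) → f s = s) ∧
      (∀ f ∈ L, (∀ t, t ≤ f t) → f ≠ 1 →
        ∃ f₁ ∈ L, ∃ f₂ ∈ L, f₁ ≠ 1 ∧ f₂ ≠ 1 ∧
          (∀ t, min (f₁ t) (f₂ t) = t) ∧ (∀ t, max (f₁ t) (f₂ t) = f t)) := by
  obtain ⟨L, h⟩ := main
  exact ⟨ℝ, inferInstance, L, ⟨0, 1, 2, by norm_num, by norm_num, by norm_num⟩, h⟩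

end Pool.Agent.Lib.MP_31a5b6_al.R
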