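import Pool.Agent.Lib.MP_31a5b6_al.R.Defs

/-! Limits of coherent sequences of automorphisms. -/

set_option autoImplicit false

namespace Pool.Agent.Lib.MP_31a5b6_al.R

open Filter Topology

theorem Tower.stage (T : Tower) (q : ℚ) : ∃ M, ∀ n, M ≤ n → ∃ t, T.j n t = q := by
  obtain ⟨M, t, ht⟩ := T.hs q
  refine ⟨M, fun n hn => ?_⟩
  induction n, hn using Nat.le_induction with
  | base => exact ⟨t, ht⟩
  | succ n _ ih =>
    obtain ⟨t', ht'⟩ := ih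
    exact ⟨T.ι n t', by rw [T.hj, ht']⟩

theorem limaut_lift (T : Tower) (F : ℕ → ℚ ≃o ℚ) (N : ℕ)
    (hF : ∀ n, N ≤ n → ∀ t, F (n + 1) (T.ι n t) = T.ι n (F n t)) (n m : ℕ) (hn : N ≤ n)
    (hm : n ≤ m) (t : ℚ) : ∃ t', T.j m t' = T.j n t ∧ T.j m (F m t') = T.j n (F n t) := by
  induction m, hm using Nat.le_induction with
  | base => exact ⟨t, rfl, rfl⟩
  | succ m hm ih =>
    obtain ⟨t', h1, h2⟩ := ih
    exact ⟨T.ι m t', by rw [T.hj, h1], by rw [hF m (hn.trans hm), T.hj, h2]⟩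

theorem limaut_cmp (T : Tower) (F : ℕ → ℚ ≃o ℚ) (N : ℕ)
    (hF : ∀ n, N ≤ n → ∀ t, F (n + 1) (T.ι n t) = T.ι n (F n t)) (n m : ℕ) (hn : N ≤ n)
    (hm : N ≤ m) (t s : ℚ) : T.j n t ≤ T.j m s ↔ T.j n (F n t) ≤ T.j m (F m s) := by
  obtain ⟨t', h1, h2⟩ := limaut_lift T F N hF n (max n m) hn (le_max_left _ _) t
  obtain ⟨s', h3, h4⟩ := limaut_lift T F N hF m (max n m) hm (le_max_right _ _) s
  rw [← h1, ← h2, ← h3, ← h4, OrderEmbedding.le_iff_le, OrderEmbedding.le_iff_le,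
    OrderIso.le_iff_le]

theorem Tower.lim_aut (T : Tower) (F : ℕ → ℚ ≃o ℚ) (N : ℕ)
    (hF : ∀ n, N ≤ n → ∀ t, F (n + 1) (T.ι n t) = T.ι n (F n t)) :
    ∃ g : ℚ ≃o ℚ, ∀ n, N ≤ n → ∀ t, g (T.j n t) = T.j n (F n t) := by
  have hex : ∀ q : ℚ, ∃ n t, N ≤ n ∧ T.j n t = q := fun q => by
    obtain ⟨M, hM⟩ := T.stage q
    obtain ⟨t, ht⟩ := hM (max M N) (le_max_left _ _)
    exact ⟨max M N, t, le_max_right _ _, ht⟩
  choose a b ha hb using hex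
  have hle : ∀ q q' : ℚ, q ≤ q' ↔
      T.j (a q) (F (a q) (b q)) ≤ T.j (a q') (F (a q') (b q')) := fun q q' => by
    rw [← limaut_cmp T F N hF _ _ (ha q) (ha q'), hb, hb]
  have hval : ∀ n, N ≤ n → ∀ t, T.j (a (T.j n t)) (F (a (T.j n t)) (b (T.j n t))) =
      T.j n (F n t) := fun n hn t =>
    le_antisymm ((limaut_cmp T F N hF _ _ (ha _) hn _ _).1 (hb _).le)
      ((limaut_cmp T F N hF _ _ hn (ha _) _ _).1 (hb _).ge)
  have hmono : StrictMono fun q => T.j (a q) (F (a q) (b q)) := strictMono_of_le_iff_le hle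
  have hsurj : Function.Surjective fun q => T.j (a q) (F (a q) (b q)) := fun q =>
    ⟨T.j (a q) ((F (a q)).symm (b q)), by
      show T.j (a (T.j (a q) _)) (F (a (T.j (a q) _)) (b (T.j (a q) _))) = q
      rw [hval _ (ha q), OrderIso.apply_symm_apply, hb]⟩
  exact ⟨hmono.orderIsoOfSurjective _ hsurj, fun n hn t => hval n hn t⟩

theorem Tower.rep_lift (T : Tower) (N : ℕ) (f : ℚ ≃o ℚ) (hf : f ∈ T.G N) :
    ∃ g F, T.Rep g N F ∧ F N = f := by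
  let F' : ℕ → ℚ ≃o ℚ := fun k => Nat.rec f (fun k g => T.Φ (N + k) g) k
  have hmem : ∀ k, F' k ∈ T.G (N + k) := fun k => by
    induction k with
    | zero => exact hf
    | succ k ih => exact (T.st (N + k)).mem _ ih
  have h1 : ∀ n, N ≤ n → F' (n - N) ∈ T.G n ∧ F' (n + 1 - N) = T.Φ n (F' (n - N)) := by
    intro n hn
    obtain ⟨k, rfl⟩ := Nat.exists_eq_add_of_le hn
    rw [Nat.add_sub_cancel_left, add_assoc, Nat.add_sub_cancel_left]
    exact ⟨hmem k, rfl⟩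
  obtain ⟨g, hg⟩ := T.lim_aut (fun n => F' (n - N)) N fun n hn t => by
    rw [(h1 n hn).2]
    exact (T.st n).eqv _ (h1 n hn).1 t
  refine ⟨g, fun n => F' (n - N), fun n hn => ⟨(h1 n hn).1, (h1 n hn).2, hg n hn⟩, ?_⟩
  show F' (N - N) = f
  rw [Nat.sub_self]
  rfl

end Pool.Agent.Lib.MP_31a5b6_al.R
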