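import Pool.Agent.Lib.MP_31a5b6_al.R.Defs

/-! The direct limit of a sequence of copies of the rationals. -/

set_option autoImplicit false

namespace Pool.Agent.Lib.MP_31a5b6_al.R

open Filter Topology

/-- the images of the point `t` of stage `n` at the later stages -/
def limOrdSeq (ι : ℕ → ℚ ↪o ℚ) (n : ℕ) (t : ℚ) : ℕ → ℚ
  | 0 => t
  | m + 1 => if n ≤ m then ι m (limOrdSeq ι n t m) else t

theorem limOrd_self (ι : ℕ → ℚ ↪o ℚ) (n : ℕ) (t : ℚ) : limOrdSeq ι n t n = t := by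
  cases n with
  | zero => rfl
  | succ n => simp [limOrdSeq]

theorem limOrd_succ (ι : ℕ → ℚ ↪o ℚ) {n m : ℕ} (h : n ≤ m) (t : ℚ) :
    limOrdSeq ι n t (m + 1) = ι m (limOrdSeq ι n t m) := by
  simp [limOrdSeq, h]

theorem limOrd_trans (ι : ℕ → ℚ ↪o ℚ) {n m k : ℕ} (h : n ≤ m) (hk : m ≤ k) (t : ℚ) :
    limOrdSeq ι m (limOrdSeq ι n t m) k = limOrdSeq ι n t k := by
  induction k, hk using Nat.le_induction with
  | base => exact limOrd_self ι m _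
  | succ k hk ih => rw [limOrd_succ ι hk, limOrd_succ ι (h.trans hk), ih]

theorem limOrd_lt (ι : ℕ → ℚ ↪o ℚ) {n m : ℕ} (h : n ≤ m) {t t' : ℚ} (ht : t < t') :
    limOrdSeq ι n t m < limOrdSeq ι n t' m := by
  induction m, h using Nat.le_induction with
  | base => rwa [limOrd_self, limOrd_self]
  | succ k hk ih =>
    rw [limOrd_succ ι hk, limOrd_succ ι hk]
    exact (ι k).strictMono ih

/-- the class of the point `t` of stage `n` -/
noncomputable def limOrdCl (ι : ℕ → ℚ ↪o ℚ) (n : ℕ) (t : ℚ) : Germ UF ℚ :=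
  (limOrdSeq ι n t : ℕ → ℚ)

theorem limOrd_cl_lift (ι : ℕ → ℚ ↪o ℚ) {n m : ℕ} (h : n ≤ m) (t : ℚ) :
    limOrdCl ι m (limOrdSeq ι n t m) = limOrdCl ι n t :=
  Germ.coe_eq.2 (((eventually_ge_atTop m).filter_mono UF_le).mono
    fun _ hk => limOrd_trans ι h hk t)

theorem limOrd_cl_lt (ι : ℕ → ℚ ↪o ℚ) (n : ℕ) {t t' : ℚ} (h : t < t') :
    limOrdCl ι n t < limOrdCl ι n t' :=
  Germ.coe_lt.2 (((eventually_ge_atTop n).filter_mono UF_le).mono
    fun _ hk => limOrd_lt ι hk h)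

theorem lim_ord (ι : ℕ → ℚ ↪o ℚ) :
    ∃ j : ℕ → ℚ ↪o ℚ, (∀ n t, j (n + 1) (ι n t) = j n t) ∧ ∀ q, ∃ n t, j n t = q := by
  classical
  let Θ : Set (Germ UF ℚ) := Set.range fun x : ℕ × ℚ => limOrdCl ι x.1 x.2
  let J : ℕ → ℚ → Θ := fun n t => ⟨limOrdCl ι n t, (n, t), rfl⟩
  have hJ : ∀ n, StrictMono (J n) := fun n t t' h => limOrd_cl_lt ι n h
  have h1 : ∀ a : Θ, ∃ n t, J n t = a := by
    rintro ⟨_, ⟨n, t⟩, rfl⟩
    exact ⟨n, t, rfl⟩
  have h2 : ∀ a b : Θ, ∃ n t t', J n t = a ∧ J n t' = b := by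
    intro a b
    obtain ⟨n, t, rfl⟩ := h1 a
    obtain ⟨m, t', rfl⟩ := h1 b
    exact ⟨max n m, _, _, Subtype.ext (limOrd_cl_lift ι (le_max_left n m) t),
      Subtype.ext (limOrd_cl_lift ι (le_max_right n m) t')⟩
  have : Countable Θ := (Set.countable_range _).to_subtype
  have : Nonempty Θ := ⟨J 0 0⟩
  have : DenselyOrdered Θ := ⟨fun a b hab => by
    obtain ⟨n, t, t', rfl, rfl⟩ := h2 a b
    obtain ⟨u, hu, hu'⟩ := exists_between ((hJ n).lt_iff_lt.1 hab)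
    exact ⟨J n u, hJ n hu, hJ n hu'⟩⟩
  have : NoMaxOrder Θ := ⟨fun a => by
    obtain ⟨n, t, rfl⟩ := h1 a
    exact ⟨J n (t + 1), hJ n (lt_add_one t)⟩⟩
  have : NoMinOrder Θ := ⟨fun a => by
    obtain ⟨n, t, rfl⟩ := h1 a
    exact ⟨J n (t - 1), hJ n (sub_one_lt t)⟩⟩
  obtain ⟨e⟩ := Order.iso_of_countable_dense Θ ℚ
  refine ⟨fun n => OrderEmbedding.ofStrictMono (fun t => e (J n t))
    (e.strictMono.comp (hJ n)), fun n t => ?_, fun q => ?_⟩
  · refine congrArg e (Subtype.ext ?_)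
    have h3 := limOrd_cl_lift ι (Nat.le_succ n) t
    rw [limOrd_succ ι le_rfl, limOrd_self] at h3
    exact h3
  · obtain ⟨n, t, h⟩ := h1 (e.symm q)
    exact ⟨n, t, (congrArg e h).trans (e.apply_symm_apply q)⟩

end Pool.Agent.Lib.MP_31a5b6_al.R
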