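import Pool.Agent.Lib.MP_31a5b6_al.R.LinkOne

/-! Marked pairs at every real number. -/

set_option autoImplicit false

namespace Pool.Agent.Lib.MP_31a5b6_al.R

open Filter Topology

variable {L : Subgroup (ℝ ≃o ℝ)} {D : Set ℝ}

theorem RB.pt_map (h : RB L D) (l : ℝ ≃o ℝ) (hl : l ∈ L) {d : ℝ} {x y : ℚ → ℕ → ℝ}
    (hp : Pt D d x y) : Pt D (l d) (fun ω n => l (x ω n)) (fun ω n => l (y ω n)) := by
  obtain ⟨a, b, hs⟩ := hp.sep
  refine ⟨fun ω n => ⟨h.inv l hl _ (hp.mem ω n).1, h.inv l hl _ (hp.mem ω n).2⟩,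
    fun ω ω' hω => ?_, fun n => l (a n), fun n => l (b n), fun n => ?_,
    l.strictMono.comp hs.amono, l.strictMono.comp_strictAnti hs.banti,
    (l.continuous.tendsto d).comp hs.alim, (l.continuous.tendsto d).comp hs.blim, fun ω => ?_⟩
  · filter_upwards [hp.mono ω ω' hω] with n hn
    exact ⟨l.strictMono hn.1, l.strictMono hn.2⟩
  · obtain ⟨h1, h2, h3, h4⟩ := hs.mem n
    exact ⟨h.inv l hl _ h1, h.inv l hl _ h2, l.strictMono h3, l.strictMono h4⟩
  · filter_upwards [hs.ann ω] with n hn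
    exact ⟨l.strictMono hn.1, l.strictMono hn.2.1, l.strictMono hn.2.2.1, l.strictMono hn.2.2.2⟩

theorem RB.link_exists (h : RB L D) : ∃ X Y : ℝ → ℚ → ℕ → ℝ, Link L D X Y := by
  choose x y hp hxy using h.link_one
  let S : Setoid ℝ := ⟨fun d d' => ∃ l ∈ L, l d = d',
    ⟨fun d => ⟨1, L.one_mem, rfl⟩,
      fun ⟨l, hl, e⟩ => ⟨l⁻¹, L.inv_mem hl, by rw [← e, inv_app_app]⟩,
      fun ⟨l, hl, e⟩ ⟨l', hl', e'⟩ => ⟨l' * l, L.mul_mem hl' hl, by rw [mul_app, e, e']⟩⟩⟩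
  let rep : ℝ → ℝ := fun d => (Quotient.mk S d).out
  have h1 : ∀ d, ∃ l ∈ L, l (rep d) = d := fun d => Quotient.mk_out (s := S) d
  have h2 : ∀ l ∈ L, ∀ d, rep (l d) = rep d := fun l hl d =>
    congrArg Quotient.out (Quotient.sound (s := S) ⟨l, hl, rfl⟩).symm
  choose k hk hkd using h1
  refine ⟨fun d ω n => k d (x (rep d) ω n), fun d ω n => k d (y (rep d) ω n), fun d => ?_,
    fun l hl d ω => ?_⟩
  · have := h.pt_map (k d) (hk d) (hp (rep d))
    rwa [hkd d] at this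
  · have h3 : ((k (l d))⁻¹ * l * k d) (rep d) = rep d := by
      rw [mul_app, mul_app, hkd d]
      apply (k (l d)).injective
      rw [app_inv_app, ← h2 l hl d, hkd]
    obtain ⟨ω', hω⟩ := hxy (rep d) _
      (L.mul_mem (L.mul_mem (L.inv_mem (hk (l d))) hl) (hk d)) h3 ω
    refine ⟨ω', ?_⟩
    filter_upwards [hω] with n hn
    simp only [h2 l hl d]
    rw [← hn.1, ← hn.2]
    simp only [mul_app, app_inv_app, and_self]

end Pool.Agent.Lib.MP_31a5b6_al.R
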