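import Pool.Agent.Lib.MP_31a5b6_al.R.Blocks

/-! Marked pairs at one real number. -/

set_option autoImplicit false

namespace Pool.Agent.Lib.MP_31a5b6_al.R

open Filter Topology

variable {L : Subgroup (ℝ ≃o ℝ)} {D : Set ℝ}

theorem linkone_iso (x : ℕ → ℝ) (p : ℕ → ℚ → ℝ) (S : Set (ℝ ≃o ℝ)) (hS : S.Countable)
    (hne : S.Nonempty)
    (hp : ∀ w ∈ S, ∀ w' ∈ S, ∀ᶠ n in UF, ∀ i j,
      (w (p n i) < w' (p n j) ↔ (w (x n) < w' (x n) ∨ (w (x n) = w' (x n) ∧ i < j)))) :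
    ∃ (w : ℚ → ℝ ≃o ℝ) (i : ℚ → ℚ), (∀ ω, w ω ∈ S) ∧
      (∀ ω ω', ω < ω' → ∀ᶠ n in UF, w ω (p n (i ω)) < w ω' (p n (i ω'))) ∧
      ∀ v ∈ S, ∀ j, ∃ ω, ∀ᶠ n in UF, w ω (p n (i ω)) = v (p n j) := by
  let P : (ℝ ≃o ℝ) → ℚ → Germ UF ℝ := fun w i => ((fun n => w (p n i) : ℕ → ℝ) : Germ UF ℝ)
  have hlt : ∀ w w' i j, P w i < P w' j ↔ ∀ᶠ n in UF, w (p n i) < w' (p n j) :=
    fun w w' i j => Germ.coe_lt
  have key : ∀ w ∈ S, ∀ w' ∈ S, ∀ i j, P w i < P w' j ↔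
      ∀ᶠ n in UF, (w (x n) < w' (x n) ∨ (w (x n) = w' (x n) ∧ i < j)) := by
    intro w hw w' hw' i j
    rw [hlt]
    exact eventually_congr ((hp w hw w' hw').mono fun n hn => hn i j)
  have same : ∀ w ∈ S, ∀ i j, i < j → P w i < P w j := fun w hw i j hij =>
    (key w hw w hw i j).2 (Eventually.of_forall fun n => Or.inr ⟨rfl, hij⟩)
  let Θ : Set (Germ UF ℝ) := {g | ∃ w ∈ S, ∃ i, g = P w i}
  have hc : Θ.Countable := by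
    refine ((hS.prod (Set.countable_univ (α := ℚ))).image fun q => P q.1 q.2).mono ?_
    rintro g ⟨w, hw, i, rfl⟩
    exact ⟨(w, i), ⟨hw, trivial⟩, rfl⟩
  have : Countable Θ := hc.to_subtype
  obtain ⟨w0, hw0⟩ := hne
  have : Nonempty Θ := ⟨⟨P w0 0, w0, hw0, 0, rfl⟩⟩
  have : NoMaxOrder Θ := ⟨by
    rintro ⟨g, w, hw, i, rfl⟩
    exact ⟨⟨P w (i + 1), w, hw, _, rfl⟩, same w hw _ _ (by linarith)⟩⟩
  have : NoMinOrder Θ := ⟨by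
    rintro ⟨g, w, hw, i, rfl⟩
    exact ⟨⟨P w (i - 1), w, hw, _, rfl⟩, same w hw _ _ (by linarith)⟩⟩
  have : DenselyOrdered Θ := ⟨by
    rintro ⟨g, w, hw, i, rfl⟩ ⟨g', w', hw', j, rfl⟩ h
    have h1 := (key w hw w' hw' i j).1 h
    rcases Ultrafilter.eventually_or.1 h1 with h2 | h2
    · exact ⟨⟨P w (i + 1), w, hw, _, rfl⟩, same w hw _ _ (by linarith),
        (key w hw w' hw' _ _).2 (h2.mono fun n hn => Or.inl hn)⟩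
    · obtain ⟨n0, hn0⟩ := h2.exists
      have hij := hn0.2
      exact ⟨⟨P w ((i + j) / 2), w, hw, _, rfl⟩, same w hw _ _ (by linarith),
        (key w hw w' hw' _ _).2 (h2.mono fun n hn => Or.inr ⟨hn.1, by linarith⟩)⟩⟩
  obtain ⟨e⟩ := Order.iso_of_countable_dense ℚ Θ
  choose w hw i hi using fun ω => (e ω).2
  refine ⟨w, i, hw, fun ω ω' h => ?_, fun v hv j => ⟨e.symm ⟨P v j, v, hv, j, rfl⟩, ?_⟩⟩
  · have h1 : (e ω).1 < (e ω').1 := e.strictMono h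
    rw [hi, hi] at h1
    exact (hlt _ _ _ _).1 h1
  · have h1 := hi (e.symm ⟨P v j, v, hv, j, rfl⟩)
    rw [e.apply_symm_apply] at h1
    exact Germ.coe_eq.1 h1.symm

theorem RB.link_one (h : RB L D) (d : ℝ) :
    ∃ x y : ℚ → ℕ → ℝ, Pt D d x y ∧ ∀ l ∈ L, l d = d → ∀ ω, ∃ ω',
      ∀ᶠ n in UF, l (x ω n) = x ω' n ∧ l (y ω n) = y ω' n := by
  obtain ⟨a, b, x, p, p', hm, ha, hb, hal, hbl, hD, hann, hpat⟩ := h.blocks d
  have hp : ∀ w ∈ {w | w ∈ L ∧ w d = d}, ∀ w' ∈ {w | w ∈ L ∧ w d = d}, ∀ᶠ n in UF, ∀ i j,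
      (w (p n i) < w' (p n j) ↔ (w (x n) < w' (x n) ∨ (w (x n) = w' (x n) ∧ i < j))) ∧
      (w (p' n i) < w' (p' n j) ↔ (w (x n) < w' (x n) ∨ (w (x n) = w' (x n) ∧ i < j))) :=
    fun w hw w' hw' => (hpat w hw.1 hw.2 w' hw'.1 hw'.2).filter_mono UF_le
  obtain ⟨w, i, hw, hmono, hall⟩ := linkone_iso x p {w | w ∈ L ∧ w d = d}
    (h.cnt.mono fun w hw => hw.1) ⟨1, L.one_mem, rfl⟩
    (fun w hw w' hw' => (hp w hw w' hw').mono fun n hn i j => (hn i j).1)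
  refine ⟨fun ω n => w ω (p n (i ω)), fun ω n => w ω (p' n (i ω)),
    ⟨fun ω n => ⟨h.inv _ (hw ω).1 _ (hD n _).1, h.inv _ (hw ω).1 _ (hD n _).2⟩, ?_,
      a, b, hm, ha, hb, hal, hbl, fun ω => ?_⟩, ?_⟩
  · intro ω ω' hω
    filter_upwards [hmono ω ω' hω, hp _ (hw ω) _ (hw ω')] with n h1 h2
    exact ⟨h1, (h2 _ _).2.2 ((h2 _ _).1.1 h1)⟩
  · exact ((hann _ (hw ω).1 (hw ω).2).filter_mono UF_le).mono fun n hn => hn _
  · intro l hl hld ω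
    have hv : l * w ω ∈ {w | w ∈ L ∧ w d = d} :=
      ⟨L.mul_mem hl (hw ω).1, by rw [mul_app, (hw ω).2, hld]⟩
    obtain ⟨ω', h1⟩ := hall _ hv (i ω)
    refine ⟨ω', ?_⟩
    filter_upwards [h1, hp _ hv _ (hw ω'), hp _ (hw ω') _ hv] with n h1 h2 h3
    refine ⟨h1.symm, le_antisymm (not_lt.1 fun hh => ?_) (not_lt.1 fun hh => ?_)⟩
    · exact ((h3 _ _).1.2 ((h3 _ _).2.1 hh)).ne h1
    · exact ((h2 _ _).1.2 ((h2 _ _).2.1 hh)).ne h1.symm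

end Pool.Agent.Lib.MP_31a5b6_al.R
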