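import Pool.Agent.Lib.MP_31a5b6_al.R.ExtR

/-! The base group on the real line. -/

set_option autoImplicit false

namespace Pool.Agent.Lib.MP_31a5b6_al.R

open Filter Topology

theorem rb_of_base (L₀ : Subgroup (ℚ ≃o ℚ)) (h : Base L₀) :
    ∃ (L : Subgroup (ℝ ≃o ℝ)) (D : Set ℝ), RB L D := by
  classical
  obtain ⟨E, hq, hsup, htriv⟩ := exists_ext
  have hpow : ∀ f (n : ℕ) (q : ℚ), (E f ^ n) (q : ℝ) = (((f ^ n) q : ℚ) : ℝ) := fun f n q => by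
    rw [← map_pow, hq]
  have hlo : ∀ (f : ℚ ≃o ℚ) (a : ℚ), (∀ s, s ≤ a → f s = s) → ∀ s : ℝ, s ≤ a → E f s = s := by
    intro f a hf s hs
    refine htriv f none (some a) (fun t _ ht => hf t (ht a rfl)) s (fun b hb => ?_) fun b hb => ?_
    · cases hb
    · cases hb
      exact hs
  have hhi : ∀ (f : ℚ ≃o ℚ) (a : ℚ), (∀ s, a ≤ s → f s = s) → ∀ s : ℝ, (a : ℝ) ≤ s → E f s = s := by
    intro f a hf s hs
    refine htriv f (some a) none (fun t ht _ => hf t (ht a rfl)) s (fun b hb => ?_) fun b hb => ?_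
    · cases hb
      exact hs
    · cases hb
  refine ⟨L₀.map E, Set.range (fun q : ℚ => (q : ℝ)), ?_, ?_, ?_, ?_, ?_, ?_, ?_, ?_⟩
  · rw [Subgroup.coe_map]
    exact h.good.cnt.image _
  · rintro _ ⟨f, hf, rfl⟩ _ ⟨g, hg, rfl⟩
    exact ⟨supIso f g, h.good.sup f hf g hg, hsup f g⟩
  · intro a b hab
    obtain ⟨q, h1, h2⟩ := exists_rat_btwn hab
    exact ⟨q, ⟨q, rfl⟩, h1, h2⟩
  · rintro _ ⟨f, -, rfl⟩ _ ⟨q, rfl⟩
    exact ⟨f q, (hq f q).symm⟩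
  · rintro _ ⟨a, rfl⟩ _ ⟨b, rfl⟩ _ ⟨x, rfl⟩ _ ⟨y, rfl⟩ h1 h2 h3 h4
    obtain ⟨l, hl, hxy, hfix⟩ := h.good.move a b x y (Rat.cast_lt.mp h1) (Rat.cast_lt.mp h2)
      (Rat.cast_lt.mp h3) (Rat.cast_lt.mp h4)
    refine ⟨E l, ⟨l, hl, rfl⟩, by rw [hq, hxy], fun s hs => ?_⟩
    rcases hs with hs | hs
    · exact hlo l a (fun t ht => hfix t (Or.inl ht)) s hs
    · exact hhi l b (fun t ht => hfix t (Or.inr ht)) s hs
  · rintro _ ⟨f, hf, rfl⟩ _ ⟨w, rfl⟩ hw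
    rw [hq] at hw
    obtain ⟨w', h1, h2⟩ := h.thick f hf w (Rat.cast_injective hw)
    refine ⟨w', Rat.cast_lt.mpr h1, fun s hs hs' => ?_⟩
    refine htriv f _ _ h2 s (fun b hb => ?_) fun b hb => ?_
    · cases hb
      exact hs
    · cases hb
      exact hs'
  · rintro _ ⟨f, hf, rfl⟩ _ ⟨x, rfl⟩ _ ⟨y, rfl⟩ h1 h2
    rw [hq] at h1
    obtain ⟨w, h3, h4, h5⟩ := h.fixp f hf x y (Rat.cast_le.mp h1) fun n => by
      have := h2 n
      rw [hpow] at this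
      exact Rat.cast_le.mp this
    exact ⟨w, ⟨w, rfl⟩, Rat.cast_le.mpr h3, Rat.cast_le.mpr h4, by rw [hq, h5]⟩
  · rintro _ ⟨f, hf, rfl⟩ _ ⟨x, rfl⟩ _ ⟨t, rfl⟩ W hW
    have hW' : ∀ w : W, ∃ u ∈ L₀, E u = w := fun w => hW w w.2
    choose u hu hEu using hW'
    obtain ⟨z, n, h1, h2, h3, h4, h5⟩ := h.pat f hf x t (Finset.univ.image u) fun w hw => by
      obtain ⟨v, -, rfl⟩ := Finset.mem_image.mp hw
      exact hu v
    refine ⟨z, ⟨z, rfl⟩, n, fun w hw w' hw' => ?_, fun hk => ?_, fun hk => ?_, fun hx m => ?_,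
      fun hx m => ?_⟩
    · have e1 : w = E (u ⟨w, hw⟩) := (hEu ⟨w, hw⟩).symm
      have e2 : w' = E (u ⟨w', hw'⟩) := (hEu ⟨w', hw'⟩).symm
      have := h1 (u ⟨w, hw⟩) (Finset.mem_image_of_mem u (Finset.mem_univ _)) (u ⟨w', hw'⟩)
        (Finset.mem_image_of_mem u (Finset.mem_univ _))
      generalize u ⟨w, hw⟩ = p at e1 this
      generalize u ⟨w', hw'⟩ = p' at e2 this
      rw [e1, e2, hpow, hq, hq, hq, hq, Rat.cast_lt, Rat.cast_lt]
      exact this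
    · refine Rat.cast_lt.mpr (h2 fun k => ?_)
      have := hk k
      rw [hpow] at this
      exact Rat.cast_lt.mp this
    · refine Rat.cast_lt.mpr (h3 fun k => ?_)
      have := hk k
      rw [hpow] at this
      exact Rat.cast_lt.mp this
    · rw [hq] at hx
      rw [hpow]
      exact Rat.cast_lt.mpr (h4 (Rat.cast_lt.mp hx) m)
    · rw [hq] at hx
      rw [hpow]
      exact Rat.cast_lt.mpr (h5 (Rat.cast_lt.mp hx) m)

end Pool.Agent.Lib.MP_31a5b6_al.R
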