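import Pool.Agent.Lib.MP_31a5b6_al.R.ExtR

/-! Equal patterns on both sides of every real number. -/

set_option autoImplicit false

namespace Pool.Agent.Lib.MP_31a5b6_al.R

open Filter Topology

variable {L : Subgroup (ℝ ≃o ℝ)} {D : Set ℝ}

theorem patq_lt (f : ℝ ≃o ℝ) (x d : ℝ) (hd : f d = d) (hx : x < d) (n : ℕ) : (f ^ n) x < d := by
  induction n with
  | zero => exact hx
  | succ n ih => rw [pow_succ_app, ← hd]; exact f.strictMono ih

theorem patq_gt (f : ℝ ≃o ℝ) (x d : ℝ) (hd : f d = d) (hx : d < x) (n : ℕ) : d < (f ^ n) x := by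
  induction n with
  | zero => exact hx
  | succ n ih => rw [pow_succ_app, ← hd]; exact f.strictMono ih

theorem RB.join (h : RB L D) (W : Finset (ℝ ≃o ℝ)) (hW : ∀ w ∈ W, w ∈ L) :
    ∃ f ∈ L, (∀ t, t ≤ f t) ∧ ∀ t, f t = t ↔ ∀ w ∈ W, w t = t := by
  classical
  induction W using Finset.induction_on with
  | empty => exact ⟨1, L.one_mem, fun t => le_rfl, fun t => by simp [one_app]⟩
  | insert w W _ ih =>
    obtain ⟨f, hf, h1, h2⟩ := ih (fun v hv => hW v (Finset.mem_insert_of_mem hv))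
    have hw := hW w (Finset.mem_insert_self _ _)
    refine ⟨supIso f (supIso w w⁻¹), h.sup _ hf _ (h.sup _ hw _ (L.inv_mem hw)),
      fun t => (h1 t).trans (le_max_left _ _), fun t => ?_⟩
    rw [supIso_apply, supIso_apply, Finset.forall_mem_insert, ← h2 t]
    constructor
    · intro e
      have a1 : f t ≤ t := (le_max_left _ _).trans e.le
      have a2 : w t ≤ t := ((le_max_left _ _).trans (le_max_right _ _)).trans e.le
      have a3 : w⁻¹ t ≤ t := ((le_max_right _ _).trans (le_max_right _ _)).trans e.le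
      have a4 := w.monotone a3
      rw [app_inv_app] at a4
      exact ⟨le_antisymm a2 a4, le_antisymm a1 (h1 t)⟩
    · rintro ⟨e1, e2⟩
      have e3 : w⁻¹ t = t := by
        have := inv_app_app w t
        rwa [e1] at this
      rw [e1, e2, e3, max_self, max_self]

theorem RB.fixq (h : RB L D) (l : ℝ ≃o ℝ) (hl : l ∈ L) (d a b : ℝ) (hd : l d = d) (ha : a < d)
    (hb : d < b) : ∃ w ∈ D, a < w ∧ w < b ∧ l w = w := by
  obtain ⟨f, hf, h1, h2⟩ := h.join {l} (fun w hw => by rw [Finset.mem_singleton.1 hw]; exact hl)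
  simp only [Finset.mem_singleton, forall_eq] at h2
  obtain ⟨x, hx, hx1, hx2⟩ := h.dense a d ha
  obtain ⟨y, hy, hy1, hy2⟩ := h.dense d b hb
  obtain ⟨w, hw, hw1, hw2, hw3⟩ := h.fixp f hf x hx y hy (h1 x)
    (fun n => ((patq_lt f x d ((h2 d).2 hd) hx2 n).trans hy1).le)
  exact ⟨w, hw, hx1.trans_le hw1, hw2.trans_lt hy2, (h2 w).1 hw3⟩

theorem RB.patq (h : RB L D) (d a b : ℝ) (ha : a < d) (hb : d < b) (W : Finset (ℝ ≃o ℝ))
    (hW : ∀ w ∈ W, w ∈ L ∧ w d = d) :
    ∃ x ∈ D, ∃ y ∈ D, a < x ∧ x < d ∧ d < y ∧ y < b ∧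
      ∀ w ∈ W, ∀ w' ∈ W, (w x < w' x ↔ w y < w' y) := by
  classical
  obtain ⟨f, hf, h1, h2⟩ := h.join W (fun w hw => (hW w hw).1)
  have hd : f d = d := (h2 d).2 (fun w hw => (hW w hw).2)
  have hW' : ∀ w ∈ insert 1 (insert f W), w ∈ L := by
    intro w hw
    rcases Finset.mem_insert.1 hw with rfl | hw
    · exact L.one_mem
    rcases Finset.mem_insert.1 hw with rfl | hw
    · exact hf
    · exact (hW w hw).1
  have m1 : (1 : ℝ ≃o ℝ) ∈ insert 1 (insert f W) := Finset.mem_insert_self _ _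
  have mf : f ∈ insert 1 (insert f W) := Finset.mem_insert_of_mem (Finset.mem_insert_self _ _)
  have mW : ∀ w ∈ W, w ∈ insert 1 (insert f W) := fun w hw =>
    Finset.mem_insert_of_mem (Finset.mem_insert_of_mem hw)
  by_cases hl : ∃ u, a < u ∧ u < d ∧ f u = u
  · by_cases hr : ∃ v, d < v ∧ v < b ∧ f v = v
    · obtain ⟨u, hu1, hu2, hu3⟩ := hl
      obtain ⟨v, hv1, hv2, hv3⟩ := hr
      obtain ⟨x, hx, hx1, hx2, hx3⟩ := h.fixq f hf u a d hu3 hu1 hu2
      obtain ⟨y, hy, hy1, hy2, hy3⟩ := h.fixq f hf v d b hv3 hv1 hv2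
      refine ⟨x, hx, y, hy, hx1, hx2, hy1, hy2, fun w hw w' hw' => ?_⟩
      rw [(h2 x).1 hx3 w hw, (h2 x).1 hx3 w' hw', (h2 y).1 hy3 w hw, (h2 y).1 hy3 w' hw']
      simp
    · push Not at hr
      obtain ⟨y0, hy, hy1, hy2⟩ := h.dense d b hb
      obtain ⟨t, ht, ht1, ht2⟩ := h.dense a d ha
      have hd' : f⁻¹ d = d := by
        have := inv_app_app f d
        rwa [hd] at this
      have hle : ∀ s, f⁻¹ s ≤ s := fun s => by
        have := (f⁻¹).monotone (h1 s)
        rwa [inv_app_app] at this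
      have hfix : ∀ s, f⁻¹ s = s → f s = s := fun s e => by
        have := app_inv_app f s
        rwa [e] at this
      have hgt := patq_gt f⁻¹ y0 d hd' hy1
      have hdec : ∀ n : ℕ, (f⁻¹ ^ n) y0 ≤ y0 := by
        intro n
        induction n with
        | zero => exact le_rfl
        | succ n ih => rw [pow_succ_app]; exact (hle _).trans ih
      obtain ⟨z, hz, n, p1, -, p3, -, p5⟩ := h.pat f⁻¹ (L.inv_mem hf) y0 hy t ht _ hW'
      have hlt : f⁻¹ y0 < y0 := lt_of_le_of_ne (hle y0) (fun e => hr y0 hy1 hy2 (hfix _ e))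
      obtain ⟨σ, s1, s2, s3⟩ := orbit_down f⁻¹ y0 d hlt.le (fun n => (hgt n).le)
      have hσ : σ ≤ d := by
        by_contra hc
        exact hr σ (not_le.1 hc) (s2.trans_lt hy2) (hfix _ s1)
      have hzd : z ≤ d := (s3 z (fun m => (p5 hlt m).le)).trans hσ
      have hyb : (f⁻¹ ^ n) y0 < b := (hdec n).trans_lt hy2
      have hzf : z < f z := (p1 1 m1 f mf).2
        (lt_of_le_of_ne (h1 _) (fun e => hr _ (hgt n) hyb e.symm))
      refine ⟨z, hz, (f⁻¹ ^ n) y0, h.inv _ (L.pow_mem (L.inv_mem hf) n) _ hy,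
        ht1.trans (p3 (fun k => ht2.trans (hgt k))), lt_of_le_of_ne hzd (fun e => ?_), hgt n, hyb,
        fun w hw w' hw' => p1 w (mW w hw) w' (mW w' hw')⟩
      rw [e, hd] at hzf
      exact lt_irrefl _ hzf
  · push Not at hl
    obtain ⟨x0, hx, hx1, hx2⟩ := h.dense a d ha
    obtain ⟨t, ht, ht1, ht2⟩ := h.dense d b hb
    have hlt' := patq_lt f x0 d hd hx2
    have hinc : ∀ n : ℕ, x0 ≤ (f ^ n) x0 := by
      intro n
      induction n with
      | zero => exact le_rfl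
      | succ n ih => rw [pow_succ_app]; exact ih.trans (h1 _)
    obtain ⟨z, hz, n, p1, p2, -, p4, -⟩ := h.pat f hf x0 hx t ht _ hW'
    have hlt : x0 < f x0 := lt_of_le_of_ne (h1 x0) (fun e => hl x0 hx1 hx2 e.symm)
    obtain ⟨σ, s1, s2, s3⟩ := orbit_up f x0 d hlt.le (fun n => (hlt' n).le)
    have hσ : d ≤ σ := by
      by_contra hc
      exact hl σ (hx1.trans_le s2) (not_le.1 hc) s1
    have hzd : d ≤ z := hσ.trans (s3 z (fun m => (p4 hlt m).le))
    have hxa : a < (f ^ n) x0 := hx1.trans_le (hinc n)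
    have hzf : z < f z := (p1 1 m1 f mf).2
      (lt_of_le_of_ne (h1 _) (fun e => hl _ hxa (hlt' n) e.symm))
    refine ⟨(f ^ n) x0, h.inv _ (L.pow_mem hf n) _ hx, z, hz, hxa, hlt' n,
      lt_of_le_of_ne hzd (fun e => ?_), (p2 (fun k => (hlt' k).trans ht1)).trans ht2,
      fun w hw w' hw' => (p1 w (mW w hw) w' (mW w' hw')).symm⟩
    rw [← e, hd] at hzf
    exact lt_irrefl _ hzf

end Pool.Agent.Lib.MP_31a5b6_al.R
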