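import Pool.Agent.Lib.MP_31a5b6_al.R.HatB
import Pool.Agent.Lib.MP_31a5b6_al.R.Patq

/-! Every strictly positive element splits. -/

set_option autoImplicit false

namespace Pool.Agent.Lib.MP_31a5b6_al.R

open Filter Topology

variable {L : Subgroup (ℝ ≃o ℝ)} {D : Set ℝ} {X Y : ℝ → ℚ → ℕ → ℝ}

/-- an interval of fixed points between two moved points -/
theorem Hat.gap (h : RB L D) (hk : Link L D X Y) {f : ℝ ≃o ℝ} (hf : Hat L X Y f) (hne : f ≠ 1) :
    ∃ x w v m : ℝ, x < w ∧ w < v ∧ v < m ∧ f x ≠ x ∧ f m ≠ m ∧ ∀ s, w < s → s < v → f s = s := by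
  obtain ⟨t₁, t₂, hb⟩ := hf.bdd
  obtain ⟨S, hS⟩ := hf.loc
  obtain ⟨x, hx⟩ : ∃ x, f x ≠ x := by
    by_contra hc
    push Not at hc
    exact hne (OrderIso.ext (funext hc))
  have hB : BddAbove {s | f s ≠ s} :=
    ⟨t₂, fun s hs => not_lt.1 fun c => hs (hb s (Or.inr c))⟩
  set b := sSup {s | f s ≠ s} with hbd
  have up : ∀ s, b < s → f s = s := fun s hs => by
    by_contra c
    exact absurd (le_csSup hB c) (not_le.2 hs)
  have fb : f b = b := by
    rcases lt_trichotomy (f b) b with c | c | c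
    · have c1 : b < f.symm b := by rwa [OrderIso.lt_symm_apply]
      have c2 := up _ c1
      rw [OrderIso.apply_symm_apply] at c2
      exact absurd c2 c1.ne
    · exact c
    · exact f.injective (up _ c)
  have xb : x < b := lt_of_le_of_ne (le_csSup hB hx) fun c => hx (c ▸ fb)
  obtain ⟨ω, hω⟩ := (hf.into b).1 0
  rw [fb] at hω
  obtain ⟨l1, -, l3⟩ := (hk.pt b).lim 0
  have e1 : ∀ᶠ n in UF, Y b 0 n = Y b ω n := by
    filter_upwards [hω, l3] with n a1 a2
    rw [← a1.2, up _ a2.2]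
  obtain rfl : ω = 0 := by
    rcases lt_trichotomy ω 0 with c | c | c
    · obtain ⟨n, a1, a2⟩ := (e1.and ((hk.pt b).mono _ _ c)).exists
      exact absurd a1 a2.2.ne'
    · exact c
    · obtain ⟨n, a1, a2⟩ := (e1.and ((hk.pt b).mono _ _ c)).exists
      exact absurd a1 a2.2.ne
  have e2 : ∀ᶠ t in 𝓝 b, ∀ s ∈ S, s < b → s < t :=
    (eventually_all_finset S).2 fun s _ => by
      by_cases c : s < b
      · exact (lt_mem_nhds c).mono fun t ht _ => ht
      · exact Eventually.of_forall fun t c' => absurd c' c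
  obtain ⟨n, ⟨⟨a1, a2⟩, a3⟩, a4⟩ :=
    (((hω.and l3).and (l1.eventually e2)).and (l1.eventually (lt_mem_nhds xb))).exists
  set d := X b 0 n
  obtain ⟨l, hl, e3⟩ := hS d fun c => lt_irrefl _ (a3 d c a2.1)
  obtain ⟨m, hm, dm⟩ := exists_lt_of_lt_csSup (s := {s | f s ≠ s}) ⟨x, hx⟩ a2.1
  obtain ⟨p, q, ⟨pd, dq⟩, e4⟩ := mem_nhds_iff_exists_Ioo_subset.1 e3
  obtain ⟨w, hw, w1, w2, w3⟩ := h.fixq l hl d (max p x) (min q m)
    (e3.self_of_nhds.symm.trans a1.1) (max_lt pd a4) (lt_min dq dm)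
  obtain ⟨w', w4, w5⟩ := h.thick l hl w hw w3
  obtain ⟨v, v1, v2⟩ := exists_between (lt_min w4 w2)
  simp only [lt_min_iff, max_lt_iff] at v2 w1
  refine ⟨x, w, v, m, w1.2, v1, v2.2.2, hx, hm, fun s s1 s2 => ?_⟩
  exact (e4 ⟨w1.1.trans s1, s2.trans v2.2.1⟩).trans (w5 s s1.le (s2.trans v2.1).le)

theorem split_cut (F : ℝ ≃o ℝ) (u : ℝ) (hu : F u = u) :
    ∃ f₁ f₂ : ℝ ≃o ℝ, (∀ s, s ≤ u → f₁ s = F s ∧ f₂ s = s) ∧
      ∀ s, u < s → f₁ s = s ∧ f₂ s = F s := by
  classical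
  have hF : ∀ s, F s ≤ u ↔ s ≤ u := fun s => by rw [← F.le_iff_le (x := s), hu]
  have hmono : StrictMono (fun s => if s ≤ u then F s else s) := by
    intro x y hxy
    by_cases hx : x ≤ u <;> by_cases hy : y ≤ u <;> simp only [hx, hy, if_true, if_false]
    · exact F.strictMono hxy
    · exact ((hF x).2 hx).trans_lt (not_le.1 hy)
    · exact absurd (hxy.le.trans hy) hx
    · exact hxy
  have hsurj : Function.Surjective (fun s => if s ≤ u then F s else s) := by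
    intro y
    by_cases hy : y ≤ u
    · refine ⟨F.symm y, ?_⟩
      have : F.symm y ≤ u := by rw [← hF]; simpa using hy
      simp [this]
    · exact ⟨y, by simp [hy]⟩
  let f₁ := hmono.orderIsoOfSurjective _ hsurj
  have h1 : ∀ s, f₁ s = if s ≤ u then F s else s := fun s => rfl
  refine ⟨f₁, f₁.symm.trans F, ?_, ?_⟩
  · intro s hs
    refine ⟨by simp [h1, hs], ?_⟩
    have h2 : F.symm s ≤ u := by rw [← hF]; simpa using hs
    have : f₁.symm s = F.symm s := by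
      rw [OrderIso.symm_apply_eq, h1]; simp [h2]
    simp [this]
  · intro s hs
    have hs' : ¬s ≤ u := not_le.2 hs
    refine ⟨by simp [h1, hs'], ?_⟩
    have : f₁.symm s = s := by
      rw [OrderIso.symm_apply_eq, h1]; simp [hs']
    simp [this]

theorem Hat.split (h : RB L D) (hk : Link L D X Y) {f : ℝ ≃o ℝ} (hf : Hat L X Y f)
    (hpos : ∀ t, t ≤ f t) (hne : f ≠ 1) :
    ∃ f₁ f₂ : ℝ ≃o ℝ, Hat L X Y f₁ ∧ Hat L X Y f₂ ∧ f₁ ≠ 1 ∧ f₂ ≠ 1 ∧
      (∀ t, min (f₁ t) (f₂ t) = t) ∧ ∀ t, max (f₁ t) (f₂ t) = f t := by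
  obtain ⟨x, w, v, m, xw, wv, vm, hx, hm, hs⟩ := hf.gap h hk hne
  obtain ⟨u, wu, uv⟩ := exists_between wv
  obtain ⟨f₁, f₂, h1, h2⟩ := split_cut f u (hs u wu uv)
  refine ⟨f₁, f₂, hf.of_loc hk (fun s e => ?_) fun y => ?_, hf.of_loc hk (fun s e => ?_) fun y => ?_,
    fun c => hx ?_, fun c => hm ?_, fun t => ?_, fun t => ?_⟩
  · rcases le_or_gt s u with c | c
    · rw [(h1 s c).1, e]
    · exact (h2 s c).1
  · rcases le_or_gt y u with c | c
    · refine Or.inl ((gt_mem_nhds (c.trans_lt uv)).mono fun t ht => ?_)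
      rcases le_or_gt t u with c' | c'
      · exact (h1 t c').1
      · rw [(h2 t c').1, hs t (wu.trans c') ht]
    · exact Or.inr ((lt_mem_nhds c).mono fun t ht => (h2 t ht).1)
  · rcases le_or_gt s u with c | c
    · exact (h1 s c).2
    · rw [(h2 s c).2, e]
  · rcases le_or_gt u y with c | c
    · refine Or.inl ((lt_mem_nhds (wu.trans_le c)).mono fun t ht => ?_)
      rcases le_or_gt t u with c' | c'
      · rw [(h1 t c').2, hs t ht (c'.trans_lt uv)]
      · exact (h2 t c').2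
    · exact Or.inr ((gt_mem_nhds c).mono fun t ht => (h1 t (le_of_lt ht)).2)
  · rw [← (h1 x (xw.trans wu).le).1, c, one_app]
  · rw [← (h2 m (uv.trans vm)).2, c, one_app]
  · rcases le_or_gt t u with c | c
    · rw [(h1 t c).1, (h1 t c).2, min_eq_right (hpos t)]
    · rw [(h2 t c).1, (h2 t c).2, min_eq_left (hpos t)]
  · rcases le_or_gt t u with c | c
    · rw [(h1 t c).1, (h1 t c).2, max_eq_left (hpos t)]
    · rw [(h2 t c).1, (h2 t c).2, max_eq_right (hpos t)]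

end Pool.Agent.Lib.MP_31a5b6_al.R
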