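import Pool.Agent.Lib.MP_31a5b6_al.R.RepB
import Pool.Agent.Lib.MP_31a5b6_al.R.RealB
import Pool.Agent.Lib.MP_31a5b6_al.R.LinkAll
import Pool.Agent.Lib.MP_31a5b6_al.R.Split

/-! The theorem on the real line. -/

set_option autoImplicit false

namespace Pool.Agent.Lib.MP_31a5b6_al.R

open Filter Topology

theorem main : ∃ L : Subgroup (ℝ ≃o ℝ),
    (∀ f ∈ L, ∀ g ∈ L, (∃ h ∈ L, ∀ t, h t = max (f t) (g t)) ∧
      (∃ h ∈ L, ∀ t, h t = min (f t) (g t))) ∧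
    (∀ r₁ r₂ s₁ s₂ : ℝ, r₁ < r₂ → s₁ < s₂ → ∃ f ∈ L, f r₁ = s₁ ∧ f r₂ = s₂) ∧
    (∀ f ∈ L, ∃ t₁ t₂ : ℝ, ∀ s, (s < t₁ ∨ t₂ < s) → f s = s) ∧
    (∀ f ∈ L, (∀ t, t ≤ f t) → f ≠ 1 →
      ∃ f₁ ∈ L, ∃ f₂ ∈ L, f₁ ≠ 1 ∧ f₂ ≠ 1 ∧
        (∀ t, min (f₁ t) (f₂ t) = t) ∧ (∀ t, max (f₁ t) (f₂ t) = f t)) := by
  obtain ⟨T⟩ := exists_tower
  obtain ⟨L₀, h₀⟩ := T.base
  obtain ⟨L, D, h⟩ := rb_of_base L₀ h₀
  obtain ⟨X, Y, hk⟩ := h.link_exists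
  let M : Subgroup (ℝ ≃o ℝ) :=
    { carrier := {f | Hat L X Y f}
      mul_mem' := fun hf hg => Hat.mul hf hg
      one_mem' := hat_one hk
      inv_mem' := fun hf => Hat.inv hf }
  have hM : ∀ f, f ∈ M ↔ Hat L X Y f := fun f => Iff.rfl
  refine ⟨M, ?_, ?_, ?_, ?_⟩
  · intro f hf g hg
    exact ⟨⟨_, Hat.sup h hk hf hg, supIso_apply f g⟩,
      ⟨_, Hat.inv (Hat.sup h hk (Hat.inv hf) (Hat.inv hg)), infIso_apply f g⟩⟩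
  · intro r₁ r₂ s₁ s₂ hr hs
    set a := min r₁ s₁ - 1 with ha
    set b := max r₂ s₂ + 1 with hb
    have a1 : a < r₁ := by have := min_le_left r₁ s₁; linarith
    have a2 : a < s₁ := by have := min_le_right r₁ s₁; linarith
    have b1 : r₂ < b := by have := le_max_left r₂ s₂; linarith
    have b2 : s₂ < b := by have := le_max_right r₂ s₂; linarith
    obtain ⟨f, hf, f1, f2⟩ := hat_move h hk a b r₁ s₁ a1 (hr.trans b1) a2 (hs.trans b2)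
    have c1 : s₁ < f r₂ := by rw [← f1]; exact f.strictMono hr
    have c2 : f r₂ < b := by rw [← f2 b (Or.inr le_rfl)]; exact f.strictMono b1
    obtain ⟨g, hg, g1, g2⟩ := hat_move h hk s₁ b (f r₂) s₂ c1 c2 hs b2
    refine ⟨g * f, Hat.mul hg hf, ?_, ?_⟩
    · rw [mul_app, f1, g2 s₁ (Or.inl le_rfl)]
    · rw [mul_app, g1]
  · intro f hf
    exact ((hM f).1 hf).bdd
  · intro f hf hpos hne
    obtain ⟨f₁, f₂, h₁, h₂, hr⟩ := Hat.split h hk ((hM f).1 hf) hpos hne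
    exact ⟨f₁, h₁, f₂, h₂, hr⟩

end Pool.Agent.Lib.MP_31a5b6_al.R
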