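import Pool.Agent.Lib.MP_31a5b6_al.R.Defs

/-! Moving finitely many points of the dense orbit. -/

set_option autoImplicit false

namespace Pool.Agent.Lib.MP_31a5b6_al.R

open Filter Topology

variable {L : Subgroup (ℝ ≃o ℝ)} {D : Set ℝ}

theorem RB.nt1 (h : RB L D) (a b u v : ℝ) (g : ℝ ≃o ℝ) (hg : g ∈ L) (ha : a ∈ D) (hb : b ∈ D)
    (hu : u ∈ D) (hv : v ∈ D) (h1 : a < u) (h2 : u < b) (h3 : g a < v) (h4 : v < g b) :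
    ∃ g' ∈ L, (∀ s, (s ≤ a ∨ b ≤ s) → g' s = g s) ∧ g' u = v := by
  have e1 : a < g⁻¹ v := by
    rw [← g.lt_iff_lt, app_inv_app]; exact h3
  have e2 : g⁻¹ v < b := by
    rw [← g.lt_iff_lt, app_inv_app]; exact h4
  obtain ⟨l, hl, hl1, hl2⟩ := h.move a ha b hb u hu _ (h.inv _ (L.inv_mem hg) v hv) h1 h2 e1 e2
  refine ⟨g * l, L.mul_mem hg hl, fun s hs => ?_, ?_⟩
  · rw [mul_app, hl2 s hs]
  · rw [mul_app, hl1, app_inv_app]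

theorem RB.nt (h : RB L D) (I : Finset ℚ) (u v : ℚ → ℝ) (a b : ℝ) (g : ℝ ≃o ℝ) (hg : g ∈ L)
    (ha : a ∈ D) (hb : b ∈ D) (hu : ∀ i ∈ I, u i ∈ D ∧ a < u i ∧ u i < b)
    (hv : ∀ i ∈ I, v i ∈ D ∧ g a < v i ∧ v i < g b)
    (hm : ∀ i ∈ I, ∀ j ∈ I, i < j → u i < u j ∧ v i < v j) :
    ∃ g' ∈ L, (∀ s, (s ≤ a ∨ b ≤ s) → g' s = g s) ∧ ∀ i ∈ I, g' (u i) = v i := by
  induction I using Finset.induction_on_max generalizing b g with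
  | empty => exact ⟨g, hg, fun _ _ => rfl, fun i hi => absurd hi (Finset.notMem_empty i)⟩
  | insert i0 I hlt ih =>
    have m0 : i0 ∈ insert i0 I := Finset.mem_insert_self _ _
    have ms : ∀ i ∈ I, i ∈ insert i0 I := fun i hi => Finset.mem_insert_of_mem hi
    obtain ⟨g1, hg1, a1, a2⟩ := h.nt1 a b (u i0) (v i0) g hg ha hb (hu i0 m0).1 (hv i0 m0).1
      (hu i0 m0).2.1 (hu i0 m0).2.2 (hv i0 m0).2.1 (hv i0 m0).2.2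
    have ea : g1 a = g a := a1 a (Or.inl le_rfl)
    obtain ⟨g2, hg2, b1, b2⟩ := ih (u i0) g1 hg1 (hu i0 m0).1
      (fun i hi => ⟨(hu i (ms i hi)).1, (hu i (ms i hi)).2.1,
        (hm i (ms i hi) i0 m0 (hlt i hi)).1⟩)
      (fun i hi => ⟨(hv i (ms i hi)).1, by rw [ea]; exact (hv i (ms i hi)).2.1,
        by rw [a2]; exact (hm i (ms i hi) i0 m0 (hlt i hi)).2⟩)
      (fun i hi j hj hij => hm i (ms i hi) j (ms j hj) hij)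
    refine ⟨g2, hg2, fun s hs => ?_, fun i hi => ?_⟩
    · rw [b1 s (hs.imp_right fun e => (hu i0 m0).2.2.le.trans e), a1 s hs]
    · rcases Finset.mem_insert.1 hi with rfl | hi
      · rw [b1 _ (Or.inr le_rfl), a2]
      · exact b2 i hi

/-- one step of the construction of a singular element -/
theorem RB.move_step (h : RB L D) (I : Finset ℚ) (x y x' y' : ℚ → ℝ) (a a₁ b₁ b a₂ b₂ : ℝ)
    (g : ℝ ≃o ℝ) (hg : g ∈ L) (ha : a ∈ D) (ha₁ : a₁ ∈ D) (hb₁ : b₁ ∈ D) (hb : b ∈ D)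
    (ha₂ : a₂ ∈ D) (hb₂ : b₂ ∈ D) (h1 : a < a₁) (h2 : a₁ < b₁) (h3 : b₁ < b)
    (h4 : g a < a₂) (h5 : a₂ < b₂) (h6 : b₂ < g b)
    (hx : ∀ i ∈ I, x i ∈ D ∧ a < x i ∧ x i < a₁) (hy : ∀ i ∈ I, y i ∈ D ∧ b₁ < y i ∧ y i < b)
    (hx' : ∀ i ∈ I, x' i ∈ D ∧ g a < x' i ∧ x' i < a₂)
    (hy' : ∀ i ∈ I, y' i ∈ D ∧ b₂ < y' i ∧ y' i < g b)
    (hm : ∀ i ∈ I, ∀ j ∈ I, i < j → x i < x j ∧ y i < y j ∧ x' i < x' j ∧ y' i < y' j) :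
    ∃ g' ∈ L, (∀ s, (s ≤ a ∨ b ≤ s) → g' s = g s) ∧ g' a₁ = a₂ ∧ g' b₁ = b₂ ∧
      ∀ i ∈ I, g' (x i) = x' i ∧ g' (y i) = y' i := by
  obtain ⟨g1, hg1, p1, q1⟩ := h.nt1 a b a₁ a₂ g hg ha hb ha₁ ha₂ h1 (h2.trans h3) h4
    (h5.trans h6)
  have e1a : g1 a = g a := p1 a (Or.inl le_rfl)
  have e1b : g1 b = g b := p1 b (Or.inr le_rfl)
  obtain ⟨g2, hg2, p2, q2⟩ := h.nt1 a₁ b b₁ b₂ g1 hg1 ha₁ hb hb₁ hb₂ h2 h3
    (by rw [q1]; exact h5) (by rw [e1b]; exact h6)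
  have e2a : g2 a = g a := (p2 a (Or.inl h1.le)).trans e1a
  have e2a1 : g2 a₁ = a₂ := (p2 a₁ (Or.inl le_rfl)).trans q1
  have e2b : g2 b = g b := (p2 b (Or.inr le_rfl)).trans e1b
  obtain ⟨g3, hg3, p3, q3⟩ := h.nt I x x' a a₁ g2 hg2 ha ha₁ hx
    (fun i hi => by rw [e2a, e2a1]; exact hx' i hi)
    (fun i hi j hj hij => ⟨(hm i hi j hj hij).1, (hm i hi j hj hij).2.2.1⟩)
  have e3b1 : g3 b₁ = b₂ := (p3 b₁ (Or.inr h2.le)).trans q2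
  have e3b : g3 b = g b := (p3 b (Or.inr (h2.trans h3).le)).trans e2b
  obtain ⟨g4, hg4, p4, q4⟩ := h.nt I y y' b₁ b g3 hg3 hb₁ hb hy
    (fun i hi => by rw [e3b1, e3b]; exact hy' i hi)
    (fun i hi j hj hij => ⟨(hm i hi j hj hij).2.1, (hm i hi j hj hij).2.2.2⟩)
  refine ⟨g4, hg4, fun s hs => ?_, ?_, ?_, fun i hi => ⟨?_, q4 i hi⟩⟩
  · rw [p4 s (hs.imp_left fun e => e.trans (h1.trans h2).le),
      p3 s (hs.imp_right fun e => (h2.trans h3).le.trans e),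
      p2 s (hs.imp_left fun e => e.trans h1.le), p1 s hs]
  · rw [p4 a₁ (Or.inl h2.le), p3 a₁ (Or.inr le_rfl), e2a1]
  · rw [p4 b₁ (Or.inl le_rfl), e3b1]
  · rw [p4 _ (Or.inl ((hx i hi).2.2.trans h2).le), q3 i hi]

end Pool.Agent.Lib.MP_31a5b6_al.R
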