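import Pool.Agent.Lib.MP_31a5b6_al.R.LimAut

/-! Calculus of representatives. -/

set_option autoImplicit false

namespace Pool.Agent.Lib.MP_31a5b6_al.R

open Filter Topology

theorem Tower.rep_mono (T : Tower) {g : ℚ ≃o ℚ} {N M : ℕ} {F : ℕ → ℚ ≃o ℚ} (h : T.Rep g N F)
    (hNM : N ≤ M) : T.Rep g M F := fun n hn => h n (hNM.trans hn)

theorem Tower.repA_one (T : Tower) (n : ℕ) : T.Φ n 1 = 1 := by
  have h := (T.st n).mul 1 (one_mem _) 1 (one_mem _)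
  rw [mul_one] at h
  exact (mul_eq_left.mp h.symm)

theorem Tower.rep_one (T : Tower) (N : ℕ) : T.Rep 1 N (fun _ => 1) :=
  fun n _ => ⟨one_mem _, (T.repA_one n).symm, fun _ => rfl⟩

theorem Tower.rep_mul (T : Tower) {g g' : ℚ ≃o ℚ} {N : ℕ} {F F' : ℕ → ℚ ≃o ℚ} (h : T.Rep g N F)
    (h' : T.Rep g' N F') : T.Rep (g * g') N (fun n => F n * F' n) := by
  intro n hn
  obtain ⟨a1, a2, a3⟩ := h n hn
  obtain ⟨b1, b2, b3⟩ := h' n hn
  refine ⟨mul_mem a1 b1, ?_, fun t => ?_⟩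
  · show F (n + 1) * F' (n + 1) = T.Φ n (F n * F' n)
    rw [(T.st n).mul _ a1 _ b1, a2, b2]
  · show g (g' (T.j n t)) = T.j n (F n (F' n t))
    rw [b3, a3]

theorem Tower.rep_inv (T : Tower) {g : ℚ ≃o ℚ} {N : ℕ} {F : ℕ → ℚ ≃o ℚ} (h : T.Rep g N F) :
    T.Rep g⁻¹ N (fun n => (F n)⁻¹) := by
  intro n hn
  obtain ⟨a1, a2, a3⟩ := h n hn
  refine ⟨inv_mem a1, ?_, fun t => ?_⟩
  · show (F (n + 1))⁻¹ = T.Φ n (F n)⁻¹
    have h1 := (T.st n).mul _ a1 _ (inv_mem a1)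
    rw [mul_inv_cancel, T.repA_one] at h1
    rw [a2]
    exact inv_eq_of_mul_eq_one_right h1.symm
  · show g⁻¹ (T.j n t) = T.j n ((F n)⁻¹ t)
    have h1 := a3 ((F n)⁻¹ t)
    rw [app_inv_app] at h1
    rw [← h1, inv_app_app]

theorem Tower.rep_sup (T : Tower) {g g' : ℚ ≃o ℚ} {N : ℕ} {F F' : ℕ → ℚ ≃o ℚ} (h : T.Rep g N F)
    (h' : T.Rep g' N F') : T.Rep (supIso g g') N (fun n => supIso (F n) (F' n)) := by
  intro n hn
  obtain ⟨a1, a2, a3⟩ := h n hn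
  obtain ⟨b1, b2, b3⟩ := h' n hn
  refine ⟨(T.good n).sup _ a1 _ b1, ?_, fun t => ?_⟩
  · show supIso (F (n + 1)) (F' (n + 1)) = T.Φ n (supIso (F n) (F' n))
    rw [(T.st n).sup _ a1 _ b1, a2, b2]
  · show max (g (T.j n t)) (g' (T.j n t)) = T.j n (max (F n t) (F' n t))
    rw [a3, b3, (T.j n).monotone.map_max]

theorem Tower.rep_pow (T : Tower) {g : ℚ ≃o ℚ} {N : ℕ} {F : ℕ → ℚ ≃o ℚ} (h : T.Rep g N F)
    (k : ℕ) (t : ℚ) : (g ^ k) (T.j N t) = T.j N ((F N ^ k) t) := by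
  induction k with
  | zero => rfl
  | succ k ih => rw [pow_succ_app, pow_succ_app, ih, (h N le_rfl).2.2]

theorem Tower.rep_uniq (T : Tower) {g g' : ℚ ≃o ℚ} {N : ℕ} {F F' : ℕ → ℚ ≃o ℚ} (h : T.Rep g N F)
    (h' : T.Rep g' N F') (e : F N = F' N) : g = g' := by
  have h1 : ∀ n, N ≤ n → F n = F' n := by
    intro n hn
    induction n, hn using Nat.le_induction with
    | base => exact e
    | succ n hn ih => rw [(h n hn).2.1, (h' n hn).2.1, ih]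
  apply OrderIso.ext
  funext q
  obtain ⟨M, hM⟩ := T.stage q
  obtain ⟨t, rfl⟩ := hM (max M N) (le_max_left _ _)
  rw [(h _ (le_max_right M N)).2.2, (h' _ (le_max_right M N)).2.2, h1 _ (le_max_right M N)]

theorem Tower.rep_triv (T : Tower) {g : ℚ ≃o ℚ} {N : ℕ} {F : ℕ → ℚ ≃o ℚ} (h : T.Rep g N F)
    (lo hi : Option ℚ) (ht : Triv (F N) lo hi) :
    Triv g (lo.map (T.j N)) (hi.map (T.j N)) := by
  have hmap : ∀ (n : ℕ) (o : Option ℚ), (o.map (T.ι n)).map (T.j (n + 1)) = o.map (T.j n) := by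
    intro n o
    cases o with
    | none => rfl
    | some a => exact congrArg some (T.hj n a)
  have h1 : ∀ n, N ≤ n → ∃ lo' hi' : Option ℚ, Triv (F n) lo' hi' ∧
      lo'.map (T.j n) = lo.map (T.j N) ∧ hi'.map (T.j n) = hi.map (T.j N) := by
    intro n hn
    induction n, hn using Nat.le_induction with
    | base => exact ⟨lo, hi, ht, rfl, rfl⟩
    | succ n hn ih =>
      obtain ⟨lo', hi', a1, a2, a3⟩ := ih
      refine ⟨lo'.map (T.ι n), hi'.map (T.ι n), ?_, (hmap n lo').trans a2, (hmap n hi').trans a3⟩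
      rw [(h n hn).2.1]
      exact (T.st n).triv _ (h n hn).1 lo' hi' a1
  intro s hlo hhi
  obtain ⟨M, hM⟩ := T.stage s
  obtain ⟨t, rfl⟩ := hM (max M N) (le_max_left _ _)
  obtain ⟨lo', hi', a1, a2, a3⟩ := h1 _ (le_max_right M N)
  rw [(h _ (le_max_right M N)).2.2, a1 t]
  · rintro a rfl
    exact (T.j _).le_iff_le.mp (hlo _ a2.symm)
  · rintro b rfl
    exact (T.j _).le_iff_le.mp (hhi _ a3.symm)

/-- the limit group -/
theorem Tower.lim_good (T : Tower) :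
    ∃ L : Subgroup (ℚ ≃o ℚ), Good L ∧ ∀ g, g ∈ L ↔ ∃ N F, T.Rep g N F := by
  let L : Subgroup (ℚ ≃o ℚ) :=
    { carrier := {g | ∃ N F, T.Rep g N F}
      mul_mem' := fun {a b} ⟨N, _, h⟩ ⟨N', _, h'⟩ =>
        ⟨max N N', _, T.rep_mul (T.rep_mono h (le_max_left _ _)) (T.rep_mono h' (le_max_right _ _))⟩
      one_mem' := ⟨0, _, T.rep_one 0⟩
      inv_mem' := fun {a} ⟨N, _, h⟩ => ⟨N, _, T.rep_inv h⟩ }
  refine ⟨L, ⟨?_, ?_, ?_⟩, fun g => Iff.rfl⟩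
  · choose lift F hF hFN using fun (N : ℕ) (f : T.G N) => T.rep_lift N f.1 f.2
    have hc : ∀ N, Countable (T.G N) := fun N => (T.good N).cnt.to_subtype
    refine (Set.countable_iUnion fun N => Set.countable_range (lift N)).mono ?_
    rintro g ⟨N, F', h⟩
    refine Set.mem_iUnion.mpr ⟨N, ⟨F' N, (h N le_rfl).1⟩, ?_⟩
    exact T.rep_uniq (hF N _) h (hFN N _)
  · rintro f ⟨N, _, h⟩ g ⟨N', _, h'⟩
    exact ⟨max N N', _,
      T.rep_sup (T.rep_mono h (le_max_left _ _)) (T.rep_mono h' (le_max_right _ _))⟩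
  · intro a b x y h1 h2 h3 h4
    obtain ⟨M1, hM1⟩ := T.stage a
    obtain ⟨M2, hM2⟩ := T.stage b
    obtain ⟨M3, hM3⟩ := T.stage x
    obtain ⟨M4, hM4⟩ := T.stage y
    obtain ⟨n, hn1, hn2, hn3, hn4⟩ : ∃ n, M1 ≤ n ∧ M2 ≤ n ∧ M3 ≤ n ∧ M4 ≤ n :=
      ⟨M1 + M2 + M3 + M4, by omega, by omega, by omega, by omega⟩
    obtain ⟨a', rfl⟩ := hM1 n hn1
    obtain ⟨b', rfl⟩ := hM2 n hn2
    obtain ⟨x', rfl⟩ := hM3 n hn3
    obtain ⟨y', rfl⟩ := hM4 n hn4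
    obtain ⟨l, hl, hxy, hs⟩ := (T.good n).move a' b' x' y' ((T.j n).lt_iff_lt.mp h1)
      ((T.j n).lt_iff_lt.mp h2) ((T.j n).lt_iff_lt.mp h3) ((T.j n).lt_iff_lt.mp h4)
    obtain ⟨g, F, hg, hF⟩ := T.rep_lift n l hl
    refine ⟨g, ⟨n, F, hg⟩, ?_, ?_⟩
    · rw [(hg n le_rfl).2.2, hF, hxy]
    · rintro s (h5 | h5)
      · refine T.rep_triv hg none (some a') ?_ s (fun _ h => nomatch h) ?_
        · rw [hF]
          exact fun s _ h6 => hs s (Or.inl (h6 a' rfl))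
        · intro c hc
          rw [← Option.some.inj hc]
          exact h5
      · refine T.rep_triv hg (some b') none ?_ s ?_ (fun _ h => nomatch h)
        · rw [hF]
          exact fun s h6 _ => hs s (Or.inr (h6 b' rfl))
        · intro c hc
          rw [← Option.some.inj hc]
          exact h5

end Pool.Agent.Lib.MP_31a5b6_al.R
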