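import Pool.Agent.Lib.MP_31a5b6_al.R.ExtR
import Pool.Agent.Lib.MP_31a5b6_al.R.Hull
import Pool.Agent.Lib.MP_31a5b6_al.R.GoodCl

/-! One step of the tower: completion, ultrapower, countable hull. -/

set_option autoImplicit false

namespace Pool.Agent.Lib.MP_31a5b6_al.R

open Filter Topology

/-- the ultrapower of the line -/
abbrev Up : Type := Germ (hyperfilter ℕ : Filter ℕ) ℝ

/-- the class of a sequence -/
noncomputable def stepMk (x : ℕ → ℝ) : Up := (x : Up)

theorem stepMk_surj (s : Up) : ∃ x, stepMk x = s := by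
  induction s using Germ.inductionOn with
  | h x => exact ⟨x, rfl⟩

theorem stepMk_eq (x y : ℕ → ℝ) : stepMk x = stepMk y ↔ ∀ᶠ n in UF, x n = y n := Germ.coe_eq

theorem stepMk_le (x y : ℕ → ℝ) : stepMk x ≤ stepMk y ↔ ∀ᶠ n in UF, x n ≤ y n := Germ.coe_le

theorem stepMk_lt (x y : ℕ → ℝ) : stepMk x < stepMk y ↔ ∀ᶠ n in UF, x n < y n := Germ.coe_lt

/-- the automorphism of the ultrapower induced by an automorphism of the line -/
noncomputable def stepIso (f : ℝ ≃o ℝ) : Up ≃o Up where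
  toFun := Germ.map' (fun x n => f (x n)) (fun _ _ h => h.mono fun n hn => by simp [hn])
  invFun := Germ.map' (fun x n => f.symm (x n)) (fun _ _ h => h.mono fun n hn => by simp [hn])
  left_inv x := by
    induction x using Germ.inductionOn with
    | h x => exact Germ.coe_eq.2 (Eventually.of_forall fun n => by simp)
  right_inv x := by
    induction x using Germ.inductionOn with
    | h x => exact Germ.coe_eq.2 (Eventually.of_forall fun n => by simp)
  map_rel_iff' := by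
    intro x y
    induction x using Germ.inductionOn with
    | h x =>
      induction y using Germ.inductionOn with
      | h y =>
        change ((fun n => f (x n) : ℕ → ℝ) : Up) ≤ (fun n => f (y n) : ℕ → ℝ) ↔ _
        simp [Germ.coe_le, EventuallyLE]

/-- the extension to the ultrapower as a homomorphism -/
noncomputable def stepStar : (ℝ ≃o ℝ) →* (Up ≃o Up) where
  toFun f := stepIso f
  map_one' := by
    ext x
    induction x using Germ.inductionOn with
    | h x => rfl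
  map_mul' f g := by
    ext x
    induction x using Germ.inductionOn with
    | h x => rfl

theorem stepStar_mk (f : ℝ ≃o ℝ) (x : ℕ → ℝ) :
    stepStar f (stepMk x) = stepMk (fun n => f (x n)) := rfl

/-- the diagonal embedding -/
noncomputable def stepDiag (t : ℝ) : Up := stepMk (fun _ => t)

theorem stepDiag_mono : StrictMono stepDiag := fun _ _ h =>
  (stepMk_lt _ _).2 (Eventually.of_forall fun _ => h)

theorem stepStar_diag (f : ℝ ≃o ℝ) (t : ℝ) : stepStar f (stepDiag t) = stepDiag (f t) := rfl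

theorem stepStar_sup (f g : ℝ ≃o ℝ) :
    stepStar (supIso f g) = supIso (stepStar f) (stepStar g) := by
  ext s
  obtain ⟨x, rfl⟩ := stepMk_surj s
  rw [supIso_apply, stepStar_mk, stepStar_mk, stepStar_mk]
  rcases le_total (stepMk fun n => f (x n)) (stepMk fun n => g (x n)) with h | h
  · rw [max_eq_right h, stepMk_eq]
    exact ((stepMk_le _ _).1 h).mono fun n hn => max_eq_right hn
  · rw [max_eq_left h, stepMk_eq]
    exact ((stepMk_le _ _).1 h).mono fun n hn => max_eq_left hn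

theorem stepStar_triv (f : ℝ ≃o ℝ) (lo hi : Option ℝ) (h : Triv f lo hi) :
    Triv (stepStar f) (lo.map stepDiag) (hi.map stepDiag) := by
  intro s h1 h2
  obtain ⟨x, rfl⟩ := stepMk_surj s
  rw [stepStar_mk, stepMk_eq]
  have e1 : ∀ᶠ n in UF, ∀ a, lo = some a → a ≤ x n := by
    cases lo with
    | none => exact Eventually.of_forall fun n a ha => by simp at ha
    | some a₀ =>
      refine ((stepMk_le _ _).1 (h1 (stepDiag a₀) rfl)).mono fun n hn a ha => ?_
      obtain rfl : a₀ = a := by simpa using ha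
      exact hn
  have e2 : ∀ᶠ n in UF, ∀ b, hi = some b → x n ≤ b := by
    cases hi with
    | none => exact Eventually.of_forall fun n a ha => by simp at ha
    | some b₀ =>
      refine ((stepMk_le _ _).1 (h2 (stepDiag b₀) rfl)).mono fun n hn a ha => ?_
      obtain rfl : b₀ = a := by simpa using ha
      exact hn
  filter_upwards [e1, e2] with n a1 a2 using h _ a1 a2

theorem step_orbit_lt {α : Type} [LinearOrder α] (f : α ≃o α) (x : α) (hx : x < f x) :
    StrictMono (fun n : ℕ => (f ^ n) x) := by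
  refine strictMono_nat_of_lt_succ fun n => ?_
  rw [pow_succ, mul_app]
  exact (f ^ n).strictMono hx

theorem step_orbit_gt {α : Type} [LinearOrder α] (f : α ≃o α) (x : α) (hx : f x < x) :
    StrictAnti (fun n : ℕ => (f ^ n) x) := by
  refine strictAnti_nat_of_succ_lt fun n => ?_
  rw [pow_succ, mul_app]
  exact (f ^ n).strictMono hx

theorem step_ev_iff (p : ℕ → Prop) : ∀ᶠ n in UF, ((∀ᶠ k in UF, p k) ↔ p n) := by
  by_cases h : ∀ᶠ k in UF, p k
  · exact h.mono fun n hn => ⟨fun _ => hn, fun _ => h⟩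
  · have h' : ∀ᶠ k in UF, ¬ p k := Ultrafilter.eventually_not.2 h
    exact h'.mono fun n hn => ⟨fun a => absurd a h, fun a => absurd a hn⟩

theorem step (G : Subgroup (ℚ ≃o ℚ)) (hG : Good G) :
    ∃ (G' : Subgroup (ℚ ≃o ℚ)) (ι : ℚ ↪o ℚ) (Φ : (ℚ ≃o ℚ) → (ℚ ≃o ℚ)),
      Good G' ∧ StepP G G' ι Φ := by
  classical
  obtain ⟨E, hE, hEs, hEt'⟩ := exists_ext
  have hEt : ∀ (f : ℚ ≃o ℚ) (lo hi : Option ℚ), Triv f lo hi →
      Triv (E f) (lo.map (fun q : ℚ => (q : ℝ))) (hi.map (fun q : ℚ => (q : ℝ))) := by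
    intro f lo hi h
    have := hEt' f lo hi h
    cases lo <;> cases hi <;> exact this
  have : Countable G := hG.cnt.to_subtype
  let σ : G →* (Up ≃o Up) := stepStar.comp (E.comp G.subtype)
  have hσ : ∀ f : G, σ f = stepStar (E f.1) := fun f => rfl
  have hEp : ∀ (f : ℚ ≃o ℚ) (n : ℕ) (x : ℚ), (E f ^ n) (x : ℝ) = (((f ^ n) x : ℚ) : ℝ) := by
    intro f n x
    rw [← map_pow, hE]
  have hc : ∀ (f : ℚ ≃o ℚ) (x : ℚ), ∃ c : ℝ, ∀ y : ℚ, x ≤ f x → (∀ n : ℕ, (f ^ n) x ≤ y) →
      (E f c = c ∧ (x : ℝ) ≤ c ∧ c ≤ y) := by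
    intro f x
    by_cases h : ∃ y : ℚ, x ≤ f x ∧ ∀ n : ℕ, (f ^ n) x ≤ y
    · obtain ⟨y₀, h1, h2⟩ := h
      obtain ⟨c, c1, c2, c3⟩ := orbit_up (E f) x y₀ (by rw [hE]; exact_mod_cast h1)
        (fun n => by rw [hEp]; exact_mod_cast h2 n)
      exact ⟨c, fun y _ hy => ⟨c1, c2, c3 y fun n => by rw [hEp]; exact_mod_cast hy n⟩⟩
    · exact ⟨0, fun y h1 h2 => absurd ⟨y, h1, h2⟩ h⟩
  choose c hc using hc
  let orb : (ℚ ≃o ℚ) → ℚ → Up := fun f x => stepMk (fun n => (((f ^ n) x : ℚ) : ℝ))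
  let S : Set Up := Set.range (fun p : G × ℚ => orb p.1.1 p.2) ∪
    Set.range (fun p : G × ℚ => stepDiag (c p.1.1 p.2))
  have hSc : S.Countable := (Set.countable_range _).union (Set.countable_range _)
  have hS1 : ∀ f ∈ G, ∀ x, orb f x ∈ S := fun f hf x => Or.inl ⟨(⟨f, hf⟩, x), rfl⟩
  have hS2 : ∀ f ∈ G, ∀ x, stepDiag (c f x) ∈ S := fun f hf x => Or.inr ⟨(⟨f, hf⟩, x), rfl⟩
  have hS0 : ∀ t : ℚ, stepDiag (t : ℝ) ∈ S := by
    intro t
    have e : orb 1 t = stepDiag (t : ℝ) := by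
      refine (stepMk_eq _ _).2 (Eventually.of_forall fun n => ?_)
      rw [one_pow, one_app]
    rw [← e]
    exact hS1 1 G.one_mem t
  obtain ⟨A, τ, j, hSA, hAi, hj, hτ, hτs, hτt, hτk⟩ := hull σ S hSc ⟨_, hS0 0⟩
  obtain ⟨G', hG', hsub⟩ := exists_good (Set.range τ) (Set.countable_range _)
  have hA0 : ∀ t : ℚ, stepDiag (t : ℝ) ∈ A := fun t => hSA (hS0 t)
  let ι : ℚ ↪o ℚ := OrderEmbedding.ofStrictMono (fun t => j (stepDiag (t : ℝ)))
    (fun a b hab => hj (hA0 a) (hA0 b) (stepDiag_mono (by exact_mod_cast hab)))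
  have hι : ∀ t : ℚ, ι t = j (stepDiag (t : ℝ)) := fun t => rfl
  let Φ : (ℚ ≃o ℚ) → (ℚ ≃o ℚ) := fun f => if h : f ∈ G then τ ⟨f, h⟩ else 1
  have hΦ : ∀ f (hf : f ∈ G), Φ f = τ ⟨f, hf⟩ := fun f hf => dif_pos hf
  have hσd : ∀ f (hf : f ∈ G) (t : ℚ),
      σ ⟨f, hf⟩ (stepDiag (t : ℝ)) = stepDiag ((f t : ℚ) : ℝ) := by
    intro f hf t
    rw [hσ, stepStar_diag, hE]
  refine ⟨G', ι, Φ, hG', ?_, ?_, ?_, ?_, ?_, ?_, ?_, ?_⟩
  · intro f hf
    rw [hΦ f hf]
    exact hsub ⟨_, rfl⟩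
  · intro f hf g hg
    rw [hΦ f hf, hΦ g hg, hΦ _ (G.mul_mem hf hg), ← map_mul]
    rfl
  · intro f hf t
    rw [hΦ f hf, hι, hι, hτ _ _ (hA0 t), hσd]
  · intro f hf g hg
    rw [hΦ f hf, hΦ g hg, hΦ _ (hG.sup f hf g hg)]
    apply hτs
    rw [hσ, hσ, hσ, ← stepStar_sup, ← hEs]
  · intro f hf lo hi ht
    rw [hΦ f hf]
    have h1 := stepStar_triv _ _ _ (hEt f lo hi ht)
    have h2 := hτt ⟨f, hf⟩ _ _ ?_ ?_ h1
    · have e : ∀ o : Option ℚ,
          ((o.map (fun q : ℚ => (q : ℝ))).map stepDiag).map j = o.map ι := by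
        intro o
        cases o <;> rfl
      rwa [e, e] at h2
    · intro a ha
      cases lo with
      | none => simp at ha
      | some q =>
        obtain rfl : stepDiag (q : ℝ) = a := by simpa using ha
        exact hA0 q
    · intro a ha
      cases hi with
      | none => simp at ha
      | some q =>
        obtain rfl : stepDiag (q : ℝ) = a := by simpa using ha
        exact hA0 q
  · intro f hf w hw
    rw [hΦ f hf, hι]
    exact hτk ⟨f, hf⟩ _ (hA0 w) (by rw [hσd, hw])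
  · intro f hf x y h1 h2
    obtain ⟨c1, c2, c3⟩ := hc f x y h1 h2
    have hcA : stepDiag (c f x) ∈ A := hSA (hS2 f hf x)
    refine ⟨j (stepDiag (c f x)), ?_, ?_, ?_⟩
    · exact hj.monotoneOn (hA0 x) hcA (stepDiag_mono.monotone c2)
    · exact hj.monotoneOn hcA (hA0 y) (stepDiag_mono.monotone c3)
    · rw [hΦ f hf, hτ _ _ hcA, hσ, stepStar_diag, c1]
  · intro f hf x t W hW
    have hzA : orb f x ∈ A := hSA (hS1 f hf x)
    have key : ∀ w ∈ W, ∀ w' ∈ W, (Φ w (j (orb f x)) < Φ w' (j (orb f x)) ↔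
        ∀ᶠ k in UF, w ((f ^ k) x) < w' ((f ^ k) x)) := by
      intro w hw w' hw'
      rw [hΦ w (hW w hw), hΦ w' (hW w' hw'), hτ _ _ hzA, hτ _ _ hzA,
        hj.lt_iff_lt (hAi _ _ hzA) (hAi _ _ hzA), hσ, hσ, stepStar_mk, stepStar_mk, stepMk_lt]
      refine eventually_congr (Eventually.of_forall fun k => ?_)
      rw [hE, hE]
      exact Rat.cast_lt
    have hev : ∀ᶠ n in UF, ∀ w ∈ W, ∀ w' ∈ W,
        ((∀ᶠ k in UF, w ((f ^ k) x) < w' ((f ^ k) x)) ↔ w ((f ^ n) x) < w' ((f ^ n) x)) := by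
      rw [eventually_all_finset]
      intro w _
      rw [eventually_all_finset]
      intro w' _
      exact step_ev_iff _
    obtain ⟨n, hn⟩ := hev.exists
    have hlt : ∀ s : ℚ, (∀ᶠ k in UF, (f ^ k) x < s) → j (orb f x) < ι s := by
      intro s hs
      refine hj hzA (hA0 s) ((stepMk_lt _ _).2 (hs.mono fun k hk => ?_))
      exact_mod_cast hk
    have hgt : ∀ s : ℚ, (∀ᶠ k in UF, s < (f ^ k) x) → ι s < j (orb f x) := by
      intro s hs
      refine hj (hA0 s) hzA ((stepMk_lt _ _).2 (hs.mono fun k hk => ?_))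
      exact_mod_cast hk
    refine ⟨j (orb f x), n, fun w hw w' hw' => (key w hw w' hw').trans (hn w hw w' hw'),
      fun h => hlt t (Eventually.of_forall h), fun h => hgt t (Eventually.of_forall h),
      fun h m => hgt _ ?_, fun h m => hlt _ ?_⟩
    · exact ((eventually_gt_atTop m).filter_mono UF_le).mono fun k hk => step_orbit_lt f x h hk
    · exact ((eventually_gt_atTop m).filter_mono UF_le).mono fun k hk => step_orbit_gt f x h hk

end Pool.Agent.Lib.MP_31a5b6_al.R
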