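import Pool.Agent.Lib.MP_31a5b6_al.R.RepA
import Pool.Agent.Lib.MP_31a5b6_al.R.LimOrd
import Pool.Agent.Lib.MP_31a5b6_al.R.Step

/-! The limit group is a base group. -/

set_option autoImplicit false

namespace Pool.Agent.Lib.MP_31a5b6_al.R

open Filter Topology

theorem exists_tower : Nonempty Tower := by
  choose G' ι Φ hG' hst using step
  obtain ⟨G0, hG0, -⟩ := exists_good ∅ Set.countable_empty
  let S : ℕ → {G : Subgroup (ℚ ≃o ℚ) // Good G} := fun n =>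
    Nat.rec ⟨G0, hG0⟩ (fun _ p => ⟨G' p.1 p.2, hG' p.1 p.2⟩) n
  obtain ⟨j, hj, hs⟩ := lim_ord (fun n => ι (S n).1 (S n).2)
  exact ⟨⟨fun n => (S n).1, fun n => ι (S n).1 (S n).2, fun n => Φ (S n).1 (S n).2, j,
    fun n => (S n).2, fun n => hst (S n).1 (S n).2, hj, hs⟩⟩

/-- the action of a limit element read at the next stage -/
theorem repb_next (T : Tower) {g : ℚ ≃o ℚ} {N : ℕ} {F : ℕ → ℚ ≃o ℚ} (h : T.Rep g N F) (z : ℚ) :
    g (T.j (N + 1) z) = T.j (N + 1) (T.Φ N (F N) z) := by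
  rw [(h (N + 1) (Nat.le_succ N)).2.2 z, (h N le_rfl).2.1]

/-- two points and one element at a common stage -/
theorem repb_stage (T : Tower) {g : ℚ ≃o ℚ} {N₀ : ℕ} {F : ℕ → ℚ ≃o ℚ} (h : T.Rep g N₀ F)
    (x y : ℚ) (K : ℕ) :
    ∃ N x₀ y₀, K ≤ N ∧ T.Rep g N F ∧ T.j N x₀ = x ∧ T.j N y₀ = y := by
  obtain ⟨Mx, hx⟩ := T.stage x
  obtain ⟨My, hy⟩ := T.stage y
  obtain ⟨x₀, ex⟩ := hx (N₀ + Mx + My + K) (by omega)
  obtain ⟨y₀, ey⟩ := hy (N₀ + Mx + My + K) (by omega)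
  exact ⟨_, x₀, y₀, by omega, T.rep_mono h (by omega), ex, ey⟩

theorem Tower.base (T : Tower) : ∃ L : Subgroup (ℚ ≃o ℚ), Base L := by
  classical
  obtain ⟨L, hL, hmem⟩ := T.lim_good
  refine ⟨L, hL, ?_, ?_, ?_⟩
  · intro f hf w hw
    obtain ⟨N₀, F, h₀⟩ := (hmem f).1 hf
    obtain ⟨N, t, -, -, h, rfl, -⟩ := repb_stage T h₀ w w 0
    have ht : F N t = t := (T.j N).injective (by rw [← (h N le_rfl).2.2 t, hw])
    obtain ⟨w', h1, h2⟩ := (T.st N).thick (F N) (h N le_rfl).1 t ht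
    rw [← (h N le_rfl).2.1] at h2
    have h3 := T.rep_triv (T.rep_mono h (Nat.le_succ N)) _ _ h2
    simp only [Option.map_some] at h3
    rw [T.hj] at h3
    refine ⟨_, ?_, h3⟩
    rw [← T.hj]
    exact (T.j (N + 1)).strictMono h1
  · intro f hf x y h1 h2
    obtain ⟨N₀, F, h₀⟩ := (hmem f).1 hf
    obtain ⟨N, x₀, y₀, -, h, rfl, rfl⟩ := repb_stage T h₀ x y 0
    rw [(h N le_rfl).2.2, (T.j N).le_iff_le] at h1
    have h2' : ∀ n : ℕ, (F N ^ n) x₀ ≤ y₀ := fun n => by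
      have := h2 n
      rwa [T.rep_pow h, (T.j N).le_iff_le] at this
    obtain ⟨w, w1, w2, w3⟩ := (T.st N).fixp (F N) (h N le_rfl).1 x₀ y₀ h1 h2'
    refine ⟨T.j (N + 1) w, ?_, ?_, ?_⟩
    · rw [← T.hj]
      exact (T.j (N + 1)).monotone w1
    · rw [← T.hj N y₀]
      exact (T.j (N + 1)).monotone w2
    · rw [repb_next T h, w3]
  · intro f hf x t W hW
    obtain ⟨N₀, F, h₀⟩ := (hmem f).1 hf
    have hR : ∀ w : ℚ ≃o ℚ, ∃ M R, w ∈ L → T.Rep w M R := by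
      intro w
      by_cases hw : w ∈ L
      · obtain ⟨M, R, h⟩ := (hmem w).1 hw
        exact ⟨M, R, fun _ => h⟩
      · exact ⟨0, fun _ => 1, fun h => absurd h hw⟩
    choose M R hR using hR
    obtain ⟨N, x₀, t₀, hK, h, rfl, rfl⟩ := repb_stage T h₀ x t (W.sup M)
    have hRN : ∀ w ∈ W, T.Rep w N (R w) := fun w hw =>
      T.rep_mono (hR w (hW w hw)) ((Finset.le_sup hw).trans hK)
    obtain ⟨z, n, z1, z2, z3, z4, z5⟩ := (T.st N).pat (F N) (h N le_rfl).1 x₀ t₀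
      (W.image fun w => R w N) (by
        intro v hv
        obtain ⟨w, hw, rfl⟩ := Finset.mem_image.1 hv
        exact (hRN w hw N le_rfl).1)
    refine ⟨T.j (N + 1) z, n, fun w hw w' hw' => ?_, fun hk => ?_, fun hk => ?_,
      fun hx m => ?_, fun hx m => ?_⟩
    · rw [repb_next T (hRN w hw), repb_next T (hRN w' hw'), T.rep_pow h,
        (hRN w hw N le_rfl).2.2, (hRN w' hw' N le_rfl).2.2, (T.j _).lt_iff_lt,
        (T.j _).lt_iff_lt]
      exact z1 _ (Finset.mem_image_of_mem _ hw) _ (Finset.mem_image_of_mem _ hw')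
    · rw [← T.hj N t₀, (T.j _).lt_iff_lt]
      refine z2 fun k => ?_
      have := hk k
      rwa [T.rep_pow h, (T.j N).lt_iff_lt] at this
    · rw [← T.hj N t₀, (T.j _).lt_iff_lt]
      refine z3 fun k => ?_
      have := hk k
      rwa [T.rep_pow h, (T.j N).lt_iff_lt] at this
    · rw [(h N le_rfl).2.2, (T.j N).lt_iff_lt] at hx
      rw [T.rep_pow h, ← T.hj, (T.j _).lt_iff_lt]
      exact z4 hx m
    · rw [(h N le_rfl).2.2, (T.j N).lt_iff_lt] at hx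
      rw [T.rep_pow h, ← T.hj N, (T.j _).lt_iff_lt]
      exact z5 hx m

end Pool.Agent.Lib.MP_31a5b6_al.R
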